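import Pool.Agent.W_MP_b7d892_co.Defs

set_option autoImplicit false

namespace Pool.Agent.W_MP_b7d892_co

/-- all positions reachable by one move -/
def moves : List Bool → List (List Bool)
  | a :: b :: c :: t =>
    (if a = true ∧ b = true ∧ c = false then [false :: false :: true :: t] else []) ++
    (if a = false ∧ b = true ∧ c = true then [true :: false :: false :: t] else []) ++
    (moves (b :: c :: t)).map (fun w => a :: w)
  | _ => []

theorem move_cons {w w' : List Bool} (a : Bool) (h : Move w w') : Move (a :: w) (a :: w') := by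
  obtain ⟨x, y, ⟨rfl, rfl⟩ | ⟨rfl, rfl⟩⟩ := h
  · exact ⟨a :: x, y, Or.inl ⟨rfl, rfl⟩⟩
  · exact ⟨a :: x, y, Or.inr ⟨rfl, rfl⟩⟩

theorem move_iff (w w' : List Bool) : Move w w' ↔ w' ∈ moves w := by
  constructor
  · rintro ⟨x, y, ⟨rfl, rfl⟩ | ⟨rfl, rfl⟩⟩
    · induction x with
      | nil => simp [moves]
      | cons a x ih =>
        have : (a :: x ++ [true, true, false] ++ y) = a :: (x ++ [true, true, false] ++ y) := rfl
        rw [this]
        have h2 : (a :: x ++ [false, false, true] ++ y) = a :: (x ++ [false, false, true] ++ y) :=
          rfl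
        rw [h2]
        rcases hx : x ++ [true, true, false] ++ y with _ | ⟨b, _ | ⟨c, t⟩⟩
        · simp at hx
        · exfalso
          have := congrArg List.length hx
          simp at this
          omega
        · rw [moves]
          rw [hx] at ih
          simp only [List.mem_append, List.mem_map]
          right
          exact ⟨_, ih, rfl⟩
    · induction x with
      | nil => simp [moves]
      | cons a x ih =>
        have : (a :: x ++ [false, true, true] ++ y) = a :: (x ++ [false, true, true] ++ y) := rfl
        rw [this]
        have h2 : (a :: x ++ [true, false, false] ++ y) = a :: (x ++ [true, false, false] ++ y) :=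
          rfl
        rw [h2]
        rcases hx : x ++ [false, true, true] ++ y with _ | ⟨b, _ | ⟨c, t⟩⟩
        · simp at hx
        · exfalso
          have := congrArg List.length hx
          simp at this
          omega
        · rw [moves]
          rw [hx] at ih
          simp only [List.mem_append, List.mem_map]
          right
          exact ⟨_, ih, rfl⟩
  · intro h
    induction w generalizing w' with
    | nil => simp [moves] at h
    | cons a w ih =>
      rcases w with _ | ⟨b, _ | ⟨c, t⟩⟩
      · simp [moves] at h
      · simp [moves] at h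
      · rw [moves] at h
        simp only [List.mem_append, List.mem_map] at h
        rcases h with (h | h) | ⟨v, hv, rfl⟩
        · split_ifs at h with hc
          · obtain ⟨rfl, rfl, rfl⟩ := hc
            rw [List.mem_singleton] at h
            exact ⟨[], t, Or.inl ⟨rfl, h⟩⟩
          · simp at h
        · split_ifs at h with hc
          · obtain ⟨rfl, rfl, rfl⟩ := hc
            rw [List.mem_singleton] at h
            exact ⟨[], t, Or.inr ⟨rfl, h⟩⟩
          · simp at h
        · exact move_cons a (ih v hv)

theorem finite_moves (w : List Bool) : {w' | Move w w'}.Finite := by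
  have : {w' | Move w w'} = {w' | w' ∈ moves w} := by
    ext w'
    exact move_iff w w'
  rw [this]
  exact (moves w).finite_toSet

theorem nimValue_eq (w : List Bool) :
    nimValue w = sInf {n : ℕ | ∀ w', Move w w' → nimValue w' ≠ n} := by
  rw [nimValue]
  congr 1
  ext n
  simp

theorem mex_nonempty (w : List Bool) : {n : ℕ | ∀ w', Move w w' → nimValue w' ≠ n}.Nonempty := by
  have hfin : (nimValue '' {w' | Move w w'}).Finite := (finite_moves w).image _
  obtain ⟨n, hn⟩ := hfin.exists_notMem
  exact ⟨n, fun w' hw' h => hn ⟨w', hw', h⟩⟩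

theorem nimValue_ne {w w' : List Bool} (h : Move w w') : nimValue w' ≠ nimValue w := by
  have := Nat.sInf_mem (mex_nonempty w)
  rw [← nimValue_eq] at this
  exact this w' h

theorem nimValue_le {w : List Bool} {v : ℕ} (h : ∀ w', Move w w' → nimValue w' ≠ v) :
    nimValue w ≤ v := by
  rw [nimValue_eq]
  exact Nat.sInf_le h

theorem exists_move_of_lt {w : List Bool} {v : ℕ} (h : v < nimValue w) :
    ∃ w', Move w w' ∧ nimValue w' = v := by
  by_contra hcon
  push Not at hcon
  exact absurd (nimValue_le hcon) (not_le.2 h)

theorem nimValue_eq_of {w : List Bool} {v : ℕ} (h1 : ∀ w', Move w w' → nimValue w' ≠ v)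
    (h2 : ∀ u < v, ∃ w', Move w w' ∧ nimValue w' = u) : nimValue w = v := by
  apply le_antisymm (nimValue_le h1)
  by_contra hcon
  push Not at hcon
  obtain ⟨w', hw', hv⟩ := h2 _ hcon
  exact nimValue_ne hw' hv

theorem nimValue_eq_zero {w : List Bool} (h : moves w = []) : nimValue w = 0 := by
  apply nimValue_eq_of
  · intro w' hw'
    rw [move_iff, h] at hw'
    simp at hw'
  · intro u hu
    omega

/-! ### Reversal -/

theorem Move.reverse {w w' : List Bool} (h : Move w w') : Move w.reverse w'.reverse := by
  obtain ⟨x, y, ⟨rfl, rfl⟩ | ⟨rfl, rfl⟩⟩ := h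
  · refine ⟨y.reverse, x.reverse, Or.inr ⟨?_, ?_⟩⟩ <;> simp
  · refine ⟨y.reverse, x.reverse, Or.inl ⟨?_, ?_⟩⟩ <;> simp

theorem move_reverse_iff {w w' : List Bool} : Move w.reverse w' ↔ Move w w'.reverse := by
  constructor
  · intro h
    have := h.reverse
    rwa [List.reverse_reverse] at this
  · intro h
    have := h.reverse
    rwa [List.reverse_reverse] at this

/-! ### Splitting -/

/-- `Reach w w'`: `w'` can be reached from `w` by a sequence of moves -/
abbrev Reach (w w' : List Bool) : Prop := Relation.ReflTransGen Move w w'

/-- no position reachable from `w` starts with two pegs -/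
def NS (w : List Bool) : Prop := ∀ w', Reach w w' → ∀ t, w' ≠ true :: true :: t

/-- no position reachable from `w` ends with two pegs -/
def NE (w : List Bool) : Prop := ∀ w', Reach w w' → ∀ t, w' ≠ t ++ [true, true]

theorem NS.step {w w' : List Bool} (h : NS w) (hm : Move w w') : NS w' :=
  fun v hv => h v (Relation.ReflTransGen.head hm hv)

theorem NE.step {w w' : List Bool} (h : NE w) (hm : Move w w') : NE w' :=
  fun v hv => h v (Relation.ReflTransGen.head hm hv)

theorem NS.self {w : List Bool} (h : NS w) (t : List Bool) : w ≠ true :: true :: t :=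
  h w Relation.ReflTransGen.refl t

theorem NE.self {w : List Bool} (h : NE w) (t : List Bool) : w ≠ t ++ [true, true] :=
  h w Relation.ReflTransGen.refl t

theorem Reach.reverse {w w' : List Bool} (h : Reach w w') : Reach w.reverse w'.reverse := by
  induction h with
  | refl => exact Relation.ReflTransGen.refl
  | tail _ hm ih => exact Relation.ReflTransGen.tail ih hm.reverse

theorem NE_of_NS_reverse {w : List Bool} (h : NS w.reverse) : NE w := by
  intro w' hw' t ht
  apply h w'.reverse hw'.reverse t.reverse
  rw [ht]
  simp

/-- the potential of a word, seen from the cell just before it -/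
noncomputable def pot (φ : ℝ) : List Bool → ℝ
  | [] => 0
  | b :: l => φ * ((if b then 1 else 0) + pot φ l)

theorem pot_nonneg {φ : ℝ} (h0 : 0 < φ) (l : List Bool) : 0 ≤ pot φ l := by
  induction l with
  | nil => simp [pot]
  | cons b l ih =>
    rw [pot]
    apply mul_nonneg h0.le
    split_ifs <;> linarith

theorem pot_le_of_moves {φ : ℝ} (h0 : 0 < φ) (h1 : φ < 1) (hφ : φ ^ 2 + φ = 1) (w : List Bool) :
    ∀ w' ∈ moves w, pot φ w' ≤ pot φ w := by
  induction w with
  | nil => simp [moves]
  | cons a w ih =>
    rcases w with _ | ⟨b, _ | ⟨c, t⟩⟩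
    · simp [moves]
    · simp [moves]
    · intro w' h
      rw [moves] at h
      simp only [List.mem_append, List.mem_map] at h
      have hp := pot_nonneg h0 t
      rcases h with (h | h) | ⟨v, hv, rfl⟩
      · split_ifs at h with hc
        · obtain ⟨rfl, rfl, rfl⟩ := hc
          rw [List.mem_singleton] at h
          subst h
          simp only [pot, if_true, if_false, Bool.false_eq_true]
          have : 0 ≤ φ * (1 + φ * (1 + φ * (0 + pot φ t)))
              - φ * (0 + φ * (0 + φ * (1 + pot φ t))) := by
            have e : φ * (1 + φ * (1 + φ * (0 + pot φ t)))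
              - φ * (0 + φ * (0 + φ * (1 + pot φ t))) = φ * (1 + φ - φ ^ 2) := by ring
            rw [e]
            apply mul_nonneg h0.le
            nlinarith
          linarith
        · simp at h
      · split_ifs at h with hc
        · obtain ⟨rfl, rfl, rfl⟩ := hc
          rw [List.mem_singleton] at h
          subst h
          simp only [pot, if_true, if_false, Bool.false_eq_true]
          have : φ * (0 + φ * (1 + φ * (1 + pot φ t)))
              - φ * (1 + φ * (0 + φ * (0 + pot φ t))) = φ * (φ ^ 2 + φ - 1) := by ring
          rw [hφ] at this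
          linarith
        · simp at h
      · have := ih v hv
        rw [pot, pot]
        apply mul_le_mul_of_nonneg_left _ h0.le
        linarith

theorem pot_le_of_reach {φ : ℝ} (h0 : 0 < φ) (h1 : φ < 1) (hφ : φ ^ 2 + φ = 1)
    {w w' : List Bool} (h : Reach w w') : pot φ w' ≤ pot φ w := by
  induction h with
  | refl => exact le_rfl
  | tail _ hm ih => exact (pot_le_of_moves h0 h1 hφ _ _ ((move_iff _ _).1 hm)).trans ih

theorem pot_lt {φ : ℝ} (h0 : 0 < φ) (h1 : φ < 1) (hφ : φ ^ 2 + φ = 1) (l : List Bool) :
    φ * pot φ l < 1 := by
  induction l with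
  | nil => simp [pot]
  | cons b l ih =>
    rw [pot]
    have h2 : (if b then (1 : ℝ) else 0) ≤ 1 := by split_ifs <;> norm_num
    have h3 : φ * (φ * ((if b then (1 : ℝ) else 0) + pot φ l)) ≤ φ * (φ * 1 + φ * pot φ l) := by
      apply mul_le_mul_of_nonneg_left _ h0.le
      have := mul_le_mul_of_nonneg_left h2 h0.le
      linarith
    have h4 : φ * (φ * 1 + φ * pot φ l) < φ * (φ * 1 + 1) := by
      apply mul_lt_mul_of_pos_left _ h0
      linarith
    have h5 : φ * (φ * 1 + 1) = 1 := by
      have : φ * (φ * 1 + 1) = φ ^ 2 + φ := by ring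
      rw [this, hφ]
    linarith

theorem exists_phi : ∃ φ : ℝ, 0 < φ ∧ φ < 1 ∧ φ ^ 2 + φ = 1 := by
  refine ⟨(Real.sqrt 5 - 1) / 2, ?_, ?_, ?_⟩
  · have : (1 : ℝ) < Real.sqrt 5 := by
      rw [Real.lt_sqrt] <;> norm_num
    linarith
  · have : Real.sqrt 5 < 3 := by
      rw [Real.sqrt_lt'] <;> norm_num
    linarith
  · have h : Real.sqrt 5 ^ 2 = 5 := Real.sq_sqrt (by norm_num)
    nlinarith

theorem NS_cons_false (l : List Bool) : NS (false :: l) := by
  obtain ⟨φ, h0, h1, hφ⟩ := exists_phi
  intro w' hw' t ht
  have h2 := pot_le_of_reach h0 h1 hφ hw'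
  have h3 := pot_lt h0 h1 hφ l
  rw [ht] at h2
  simp only [pot, if_true, if_false, Bool.false_eq_true] at h2
  have h4 := pot_nonneg h0 t
  have h5 : 1 ≤ φ * (1 + φ * (1 + pot φ t)) := by
    have : φ * (1 + φ * (1 + pot φ t)) = (φ ^ 2 + φ) + φ * φ * pot φ t := by ring
    rw [this, hφ]
    have : 0 ≤ φ * φ * pot φ t := mul_nonneg (mul_nonneg h0.le h0.le) h4
    linarith
  linarith

theorem NE_append_false (l : List Bool) : NE (l ++ [false]) := by
  apply NE_of_NS_reverse
  rw [List.reverse_append]
  exact NS_cons_false _

theorem reach_of_moves_nil {w w' : List Bool} (h : moves w = []) (hr : Reach w w') : w' = w := by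
  rcases Relation.ReflTransGen.cases_head hr with h1 | ⟨v, hv, _⟩
  · exact h1.symm
  · rw [move_iff, h] at hv
    simp at hv

/-- the moves of a split word -/
theorem moves_split (U Z : List Bool) (hU : ∀ t, U ≠ t ++ [true, true])
    (hZ : ∀ t, Z ≠ true :: true :: t) :
    ∀ w', w' ∈ moves (U ++ false :: Z) ↔
      (∃ U' ∈ moves U, w' = U' ++ false :: Z) ∨ (∃ Z' ∈ moves Z, w' = U ++ false :: Z') := by
  have h0 : ∀ w', w' ∈ moves (false :: Z) ↔ ∃ Z' ∈ moves Z, w' = false :: Z' := by
    intro w'
    rcases Z with _ | ⟨b, _ | ⟨c, t⟩⟩
    · simp [moves]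
    · simp [moves]
    · rw [moves]
      simp only [Bool.false_eq_true, false_and, if_false, List.nil_append, true_and,
        List.mem_append, List.mem_map]
      constructor
      · rintro (h | ⟨v, hv, rfl⟩)
        · split_ifs at h with hc
          · obtain ⟨rfl, rfl⟩ := hc
            exact absurd rfl (hZ t)
          · simp at h
        · exact ⟨v, hv, rfl⟩
      · rintro ⟨v, hv, rfl⟩
        exact Or.inr ⟨v, hv, rfl⟩
  induction U with
  | nil =>
    intro w'
    simp only [List.nil_append]
    rw [h0]
    simp [moves]
  | cons a U ih =>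
    intro w'
    have hU' : ∀ t, U ≠ t ++ [true, true] := by
      intro t ht
      exact hU (a :: t) (by rw [ht]; rfl)
    have ih' := ih hU'
    rcases U with _ | ⟨b, _ | ⟨c, t⟩⟩
    · -- U = [a]
      simp only [List.cons_append, List.nil_append] at ih' ⊢
      rcases Z with _ | ⟨z, Z⟩
      · simp [moves]
      · rw [moves]
        simp only [List.mem_append, List.mem_map]
        have e1 : ¬ (a = true ∧ false = true ∧ z = false) := by simp
        have e2 : ¬ (a = false ∧ false = true ∧ z = true) := by simp
        rw [if_neg e1, if_neg e2]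
        constructor
        · rintro ((h | h) | ⟨v, hv, rfl⟩)
          · simp at h
          · simp at h
          · right
            rw [h0] at hv
            obtain ⟨Z', hZ', rfl⟩ := hv
            exact ⟨Z', hZ', rfl⟩
        · rintro (⟨U', hU', rfl⟩ | ⟨Z', hZ', rfl⟩)
          · simp [moves] at hU'
          · exact Or.inr ⟨false :: Z', (h0 _).2 ⟨Z', hZ', rfl⟩, rfl⟩
    · -- U = [a, b]
      simp only [List.cons_append, List.nil_append] at ih' ⊢
      rw [moves]
      simp only [List.mem_append, List.mem_map]
      have e1 : ¬ (a = true ∧ b = true ∧ True) := by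
        rintro ⟨rfl, rfl, _⟩
        exact hU [] rfl
      have e2 : ¬ (a = false ∧ b = true ∧ false = true) := by simp
      rw [if_neg e1, if_neg e2]
      constructor
      · rintro ((h | h) | ⟨v, hv, rfl⟩)
        · simp at h
        · simp at h
        · right
          rcases (ih' v).1 hv with ⟨U', hU', _⟩ | ⟨Z', hZ', rfl⟩
          · simp [moves] at hU'
          · exact ⟨Z', hZ', rfl⟩
      · rintro (⟨U', hU', rfl⟩ | ⟨Z', hZ', rfl⟩)
        · simp [moves] at hU'
        · exact Or.inr ⟨b :: false :: Z', (ih' _).2 (Or.inr ⟨Z', hZ', rfl⟩), rfl⟩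
    · -- U = a :: b :: c :: t
      simp only [List.cons_append] at ih' ⊢
      rw [moves, moves]
      simp only [List.mem_append, List.mem_map]
      constructor
      · rintro ((h | h) | ⟨v, hv, rfl⟩)
        · split_ifs at h with hc
          · rw [List.mem_singleton] at h
            left
            refine ⟨false :: false :: true :: t, Or.inl (Or.inl ?_), ?_⟩
            · rw [if_pos hc]
              simp
            · rw [h]
              rfl
          · simp at h
        · split_ifs at h with hc
          · rw [List.mem_singleton] at h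
            left
            refine ⟨true :: false :: false :: t, Or.inl (Or.inr ?_), ?_⟩
            · rw [if_pos hc]
              simp
            · rw [h]
              rfl
          · simp at h
        · rcases (ih' v).1 hv with ⟨U', hU', rfl⟩ | ⟨Z', hZ', rfl⟩
          · left
            exact ⟨a :: U', Or.inr ⟨U', hU', rfl⟩, rfl⟩
          · right
            exact ⟨Z', hZ', rfl⟩
      · rintro (⟨U', (h | h) | ⟨v, hv, rfl⟩, rfl⟩ | ⟨Z', hZ', rfl⟩)
        · split_ifs at h with hc
          · rw [List.mem_singleton] at h
            left; left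
            rw [if_pos hc, h]
            simp
          · simp at h
        · split_ifs at h with hc
          · rw [List.mem_singleton] at h
            left; right
            rw [if_pos hc, h]
            simp
          · simp at h
        · right
          exact ⟨v ++ false :: Z, (ih' _).2 (Or.inl ⟨v, hv, rfl⟩), rfl⟩
        · right
          exact ⟨b :: c :: (t ++ false :: Z'), (ih' _).2 (Or.inr ⟨Z', hZ', rfl⟩), rfl⟩

theorem nim_split_aux (N : ℕ) : ∀ U Z : List Bool, U.count true + Z.count true ≤ N →
    NE U → NS Z → nimValue (U ++ false :: Z) = nimValue U ^^^ nimValue Z := by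
  induction N with
  | zero =>
    intro U Z hN hU hZ
    apply nimValue_eq_of
    · intro w' hw'
      have := hw'.count_lt
      simp only [List.count_append, List.count_cons] at this
      simp at this
      omega
    · intro u hu
      exfalso
      have h1 : nimValue U = 0 := by
        by_contra hne
        obtain ⟨w', hw', _⟩ := exists_move_of_lt (Nat.pos_of_ne_zero hne)
        have := hw'.count_lt
        omega
      have h2 : nimValue Z = 0 := by
        by_contra hne
        obtain ⟨w', hw', _⟩ := exists_move_of_lt (Nat.pos_of_ne_zero hne)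
        have := hw'.count_lt
        omega
      rw [h1, h2] at hu
      simp at hu
  | succ N ih =>
    intro U Z hN hU hZ
    have key := moves_split U Z (fun t => hU.self t) (fun t => hZ.self t)
    apply nimValue_eq_of
    · intro w' hw'
      rw [move_iff, key] at hw'
      rcases hw' with ⟨U', hU', rfl⟩ | ⟨Z', hZ', rfl⟩
      · rw [← move_iff] at hU'
        have hlt := hU'.count_lt
        rw [ih U' Z (by omega) (hU.step hU') hZ]
        intro h
        have := nimValue_ne hU'
        exact this (Nat.xor_left_injective h)
      · rw [← move_iff] at hZ'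
        have hlt := hZ'.count_lt
        rw [ih U Z' (by omega) hU (hZ.step hZ')]
        intro h
        have := nimValue_ne hZ'
        exact this (Nat.xor_right_injective h)
    · intro u hu
      rcases Nat.lt_xor_cases hu with h | h
      · -- u ^^^ nimValue Z < nimValue U
        obtain ⟨U', hU', hv⟩ := exists_move_of_lt h
        have hlt := hU'.count_lt
        refine ⟨U' ++ false :: Z, ?_, ?_⟩
        · rw [move_iff, key]
          exact Or.inl ⟨U', (move_iff _ _).1 hU', rfl⟩
        · rw [ih U' Z (by omega) (hU.step hU') hZ, hv, Nat.xor_assoc, Nat.xor_self, Nat.xor_zero]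
      · obtain ⟨Z', hZ', hv⟩ := exists_move_of_lt h
        have hlt := hZ'.count_lt
        refine ⟨U ++ false :: Z', ?_, ?_⟩
        · rw [move_iff, key]
          exact Or.inr ⟨Z', (move_iff _ _).1 hZ', rfl⟩
        · rw [ih U Z' (by omega) hU (hZ.step hZ'), hv, Nat.xor_comm u, ← Nat.xor_assoc,
            Nat.xor_self, Nat.zero_xor]

/-- The sum lemma. -/
theorem nim_split {U Z : List Bool} (hU : NE U) (hZ : NS Z) :
    nimValue (U ++ false :: Z) = nimValue U ^^^ nimValue Z :=
  nim_split_aux _ U Z le_rfl hU hZ

end Pool.Agent.W_MP_b7d892_co
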