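import Mathlib

set_option autoImplicit false

namespace Pool.Agent.W_MP_b7d892_co

/-- A position is a word over `{0, 1}`, written as a list of Booleans (`true` for a peg, `false`
for an empty cell). `Move w w'` says that `w'` arises from `w` by one move: three consecutive
cells `110` become `001`, or `011` become `100`. -/
def Move (w w' : List Bool) : Prop :=
  ∃ x y : List Bool,
    (w = x ++ [true, true, false] ++ y ∧ w' = x ++ [false, false, true] ++ y) ∨
    (w = x ++ [false, true, true] ++ y ∧ w' = x ++ [true, false, false] ++ y)

theorem Move.count_lt {w w' : List Bool} (h : Move w w') :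
    w'.count true < w.count true := by
  obtain ⟨x, y, ⟨rfl, rfl⟩ | ⟨rfl, rfl⟩⟩ := h <;>
    simp only [List.count_append] <;> simp

/-- The nim-value (Sprague-Grundy value) of a position: the least natural number that is not the
nim-value of a position reachable in one move. -/
noncomputable def nimValue (w : List Bool) : ℕ :=
  sInf {n : ℕ | ∀ w' : {w' : List Bool // Move w w'}, nimValue w'.1 ≠ n}
termination_by w.count true
decreasing_by exact w'.2.count_lt

end Pool.Agent.W_MP_b7d892_co
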