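import Pool.Agent.W_MP_b7d892_co.Omega

set_option autoImplicit false

namespace Pool.Agent.W_MP_b7d892_co

/-- the values at the right end, for `n` blocks -/
def SS (n : ℕ) : Prop := wv 0 n = 2 * n ∧ wv 1 n = 2 * n + 1 ∧ wv 2 n = 2 * n ∧ wv 4 n = 2 * n

theorem SS_zero : SS 0 := by
  refine ⟨?_, ?_, ?_, ?_⟩
  · rw [wv, ev_eq 12 _ (by decide)]
    decide +kernel
  · rw [wv, ev_eq 12 _ (by decide)]
    decide +kernel
  · rw [wv, ev_eq 12 _ (by decide)]
    decide +kernel
  · rw [wv, ev_eq 12 _ (by decide)]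
    decide +kernel

theorem LT0 : LT 0 = [] := rfl

theorem LT3 : LT 3 = [] := rfl

theorem step0 (k : ℕ) (h : ∀ m ≤ k, SS m) : wv 0 (k + 1) = 2 * (k + 1) := by
  apply wv_eq_of (by norm_num)
  · rintro (⟨e, he, _⟩ | ⟨i, m, him, h1 | h1 | h1⟩ | ⟨i, m, him, h1⟩)
    · rw [LT0] at he
      simp at he
    · rw [(h m (by omega)).2.1] at h1
      have := xor_parity (V i 0 4) (2 * m + 1)
      have h2 := V_0_4 i
      omega
    · rw [(h m (by omega)).2.2.1, V_0_3, Nat.zero_xor] at h1
      omega
    · rw [(h m (by omega)).1, V_0_7, one_xor_even] at h1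
      omega
    · rw [(h m (by omega)).2.2.2, V_0_6, one_xor_even] at h1
      omega
  · intro u hu
    rcases Nat.even_or_odd' u with ⟨m, rfl | rfl⟩
    · refine Or.inr (Or.inl ⟨k - m, m, by omega, Or.inr (Or.inl ?_)⟩)
      rw [(h m (by omega)).2.2.1, V_0_3, Nat.zero_xor]
    · refine Or.inr (Or.inl ⟨k - m, m, by omega, Or.inr (Or.inr ?_)⟩)
      rw [(h m (by omega)).1, V_0_7, one_xor_even]

theorem step1 (k : ℕ) (h : ∀ m ≤ k, SS m) (h0 : wv 0 (k + 1) = 2 * (k + 1)) :
    wv 1 (k + 1) = 2 * (k + 1) + 1 := by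
  apply wv_eq_of (by norm_num)
  · rintro (⟨e, he, h1⟩ | ⟨i, m, him, h1 | h1 | h1⟩ | ⟨i, m, him, h1⟩)
    · change e ∈ [(⟨[true, false], 0, 0, false⟩ : Entry), ⟨[false], 0, 4, true⟩] at he
      simp only [List.mem_cons, List.not_mem_nil, or_false] at he
      rcases he with rfl | rfl
      · simp only [Bool.false_eq_true, if_false, Nat.zero_xor] at h1
        omega
      · simp only [if_true, Nat.zero_xor] at h1
        rw [(h k le_rfl).2.2.2] at h1
        omega
    · rw [(h m (by omega)).2.1, V_1_4, one_xor_odd] at h1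
      omega
    · rw [(h m (by omega)).2.2.1, V_1_3, one_xor_even] at h1
      omega
    · rw [(h m (by omega)).1, V_1_7, Nat.zero_xor] at h1
      omega
    · rw [(h m (by omega)).2.2.2, V_1_6, Nat.zero_xor] at h1
      omega
  · intro u hu
    rcases Nat.even_or_odd' u with ⟨m, rfl | rfl⟩
    · by_cases hm : m = k + 1
      · subst hm
        refine Or.inl ⟨⟨[true, false], 0, 0, false⟩, List.Mem.head _, ?_⟩
        simp only [Bool.false_eq_true, if_false, Nat.zero_xor]
        exact h0.symm
      · refine Or.inr (Or.inl ⟨k - m, m, by omega, Or.inl ?_⟩)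
        rw [(h m (by omega)).2.1, V_1_4, one_xor_odd]
    · refine Or.inr (Or.inl ⟨k - m, m, by omega, Or.inr (Or.inl ?_)⟩)
      rw [(h m (by omega)).2.2.1, V_1_3, one_xor_even]

theorem ne3 (k : ℕ) (h : ∀ m ≤ k, SS m) : wv 3 (k + 1) ≠ 2 * (k + 1) := by
  rcases Nat.even_or_odd' k with ⟨c, hc | hc⟩
  · apply wv_ne (by norm_num)
    refine Or.inr (Or.inl ⟨0, k, by omega, Or.inr (Or.inr ?_)⟩)
    rw [(h k le_rfl).1, V_3_7, two_xor_even]
    rcases one_xor_cases k with ⟨_, h2⟩ | ⟨h2, _⟩ <;> omega
  · have hle : wv 3 (k + 1) ≤ 2 * k - 1 := by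
      apply wv_le (by norm_num)
      rintro (⟨e, he, _⟩ | ⟨i, m, him, h1 | h1 | h1⟩ | ⟨i, m, him, h1⟩)
      · rw [LT3] at he
        simp at he
      · rw [(h m (by omega)).2.1, V_3_4, one_xor_odd] at h1
        omega
      · rw [(h m (by omega)).2.2.1] at h1
        rcases i with _ | i
        · have h2 : V 0 3 3 = 0 := rfl
          rw [h2, Nat.zero_xor] at h1
          omega
        · rw [V_3_3, three_xor_even] at h1
          rcases one_xor_cases m with ⟨_, h2⟩ | ⟨_, h2⟩ <;> omega
      · rw [(h m (by omega)).1, V_3_7, two_xor_even] at h1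
        omega
      · rw [(h m (by omega)).2.2.2, V_3_6, two_xor_even] at h1
        omega
    omega

theorem step2 (k : ℕ) (h : ∀ m ≤ k, SS m) : wv 2 (k + 1) = 2 * (k + 1) := by
  have h3 := ne3 k h
  apply wv_eq_of (by norm_num)
  · rintro (⟨e, he, h1⟩ | ⟨i, m, him, h1 | h1 | h1⟩ | ⟨i, m, him, h1⟩)
    · change e ∈ [(⟨[true], 0, 3, false⟩ : Entry), ⟨[false, true], 0, 4, true⟩] at he
      simp only [List.mem_cons, List.not_mem_nil, or_false] at he
      rcases he with rfl | rfl
      · simp only [Bool.false_eq_true, if_false, Nat.zero_xor] at h1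
        exact h3 h1.symm
      · simp only [if_true, Nat.zero_xor] at h1
        rw [(h k le_rfl).2.2.2] at h1
        omega
    · rw [(h m (by omega)).2.1] at h1
      rcases i with _ | i
      · have h2 : V 0 2 4 = 4 := rfl
        rw [h2] at h1
        have := xor_parity 4 (2 * m + 1)
        omega
      · rw [V_2_4, three_xor_odd] at h1
        rcases one_xor_cases m with ⟨_, h2⟩ | ⟨_, h2⟩ <;> omega
    · rw [(h m (by omega)).2.2.1, V_2_3, one_xor_even] at h1
      omega
    · rw [(h m (by omega)).1, V_2_7, Nat.zero_xor] at h1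
      omega
    · rw [(h m (by omega)).2.2.2, V_2_6, Nat.zero_xor] at h1
      omega
  · intro u hu
    rcases Nat.even_or_odd' u with ⟨m, rfl | rfl⟩
    · refine Or.inr (Or.inl ⟨k - m, m, by omega, Or.inr (Or.inr ?_)⟩)
      rw [(h m (by omega)).1, V_2_7, Nat.zero_xor]
    · refine Or.inr (Or.inl ⟨k - m, m, by omega, Or.inr (Or.inl ?_)⟩)
      rw [(h m (by omega)).2.2.1, V_2_3, one_xor_even]

theorem ne5 (k : ℕ) (h1 : wv 1 (k + 1) = 2 * (k + 1) + 1) : wv 5 (k + 1) ≠ 2 * (k + 1) := by
  apply wv_ne (by norm_num)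
  refine Or.inl ⟨⟨[false, true, true, false], 1, 1, false⟩, List.Mem.head _, ?_⟩
  simp only [Bool.false_eq_true, if_false]
  rw [h1, one_xor_odd]

theorem ne6 (k : ℕ) (h1 : wv 1 (k + 1) = 2 * (k + 1) + 1) : wv 6 (k + 1) ≠ 2 * (k + 1) := by
  apply wv_ne (by norm_num)
  refine Or.inl ⟨⟨[false, true, true, true, false], 1, 1, false⟩,
    List.Mem.tail _ (List.Mem.tail _ (List.Mem.head _)), ?_⟩
  simp only [Bool.false_eq_true, if_false]
  rw [h1, one_xor_odd]

theorem step4 (k : ℕ) (h : ∀ m ≤ k, SS m) (h0 : wv 0 (k + 1) = 2 * (k + 1))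
    (h1 : wv 1 (k + 1) = 2 * (k + 1) + 1) (h2 : wv 2 (k + 1) = 2 * (k + 1)) :
    wv 4 (k + 1) = 2 * (k + 1) := by
  have h5 := ne5 k h1
  have h6 := ne6 k h1
  apply wv_eq_of (by norm_num)
  · rintro (⟨e, he, h7⟩ | ⟨i, m, him, h7 | h7 | h7⟩ | ⟨i, m, him, h7⟩)
    · change e ∈ [(⟨[true, false], 0, 5, false⟩ : Entry), ⟨[false], 0, 6, false⟩,
        ⟨[false, true, true, false, true, true, false], 0, 1, false⟩,
        ⟨[false, true, true, false, true, false], 2, 2, false⟩,
        ⟨[false, true, true, false, true, false, true, true, true, false], 4, 0, false⟩,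
        ⟨[false, true, true, false, true, false, true, true, false], 1, 4, true⟩] at he
      simp only [List.mem_cons, List.not_mem_nil, or_false] at he
      rcases he with rfl | rfl | rfl | rfl | rfl | rfl
      · simp only [Bool.false_eq_true, if_false, Nat.zero_xor] at h7
        exact h5 h7.symm
      · simp only [Bool.false_eq_true, if_false, Nat.zero_xor] at h7
        exact h6 h7.symm
      · simp only [Bool.false_eq_true, if_false, Nat.zero_xor] at h7
        omega
      · simp only [Bool.false_eq_true, if_false] at h7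
        rw [h2] at h7
        exact xor_ne_self (by norm_num) h7.symm
      · simp only [Bool.false_eq_true, if_false] at h7
        rw [h0] at h7
        exact xor_ne_self (by norm_num) h7.symm
      · simp only [if_true] at h7
        rw [(h k le_rfl).2.2.2, one_xor_even] at h7
        omega
    · rw [(h m (by omega)).2.1, V_4_4, Nat.zero_xor] at h7
      omega
    · rw [(h m (by omega)).2.2.1, V_4_3, Nat.zero_xor] at h7
      omega
    · rw [(h m (by omega)).1, V_4_7, three_xor_even] at h7
      omega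
    · rw [(h m (by omega)).2.2.2, V_4_6, one_xor_even] at h7
      omega
  · intro u hu
    rcases Nat.even_or_odd' u with ⟨m, rfl | rfl⟩
    · refine Or.inr (Or.inl ⟨k - m, m, by omega, Or.inr (Or.inl ?_)⟩)
      rw [(h m (by omega)).2.2.1, V_4_3, Nat.zero_xor]
    · refine Or.inr (Or.inl ⟨k - m, m, by omega, Or.inl ?_⟩)
      rw [(h m (by omega)).2.1, V_4_4, Nat.zero_xor]

theorem SS_all (n : ℕ) : SS n := by
  induction n using Nat.strong_induction_on with
  | _ n ih =>
  rcases n with _ | k
  · exact SS_zero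
  · have h : ∀ m ≤ k, SS m := fun m hm => ih m (by omega)
    have h0 := step0 k h
    have h1 := step1 k h h0
    have h2 := step2 k h
    exact ⟨h0, h1, h2, step4 k h h0 h1 h2⟩

/-- The nim-value of `(0101011011)^n 1` is `2 n`. -/
theorem nim_family (n : ℕ) :
    nimValue ((List.replicate n [false, true, false, true, false, true, true, false, true,
      true]).flatten ++ [true]) = 2 * n := by
  have h : ∀ n, bp n = (List.replicate n blk).flatten := by
    intro n
    induction n with
    | zero => rfl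
    | succ n ih => rw [bp_succ, ih, List.replicate_succ, List.flatten_cons]
  have := (SS_all n).1
  rw [wv, W, h] at this
  exact this

theorem bp_length (n : ℕ) : (bp n).length = 10 * n := by
  induction n with
  | zero => rfl
  | succ n ih =>
    rw [bp_succ, List.length_append, ih]
    simp [blk]
    ring

/-- Every value `k` is attained on a strip with at most `5 k + 1` cells. -/
theorem every_value (k : ℕ) :
    ∃ w : List Bool, w ≠ [] ∧ w.length ≤ 5 * k + 1 ∧ nimValue w = k := by
  rcases Nat.even_or_odd' k with ⟨n, rfl | rfl⟩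
  · refine ⟨W 0 n, ?_, ?_, (SS_all n).1⟩
    · simp [W]
    · have h : (Lw 0).length = 0 := rfl
      rw [W, List.length_append, List.length_append, bp_length, h]
      simp
      omega
  · refine ⟨W 1 n, ?_, ?_, (SS_all n).2.1⟩
    · simp [W]
    · have h : (Lw 1).length = 3 := rfl
      rw [W, List.length_append, List.length_append, bp_length, h]
      simp
      omega

end Pool.Agent.W_MP_b7d892_co
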