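import Pool.Agent.W_MP_b7d892_co.Table

set_option autoImplicit false

namespace Pool.Agent.W_MP_b7d892_co

/-- value of the right component after a crossing cut at the left end of `n` blocks -/
def incV : ℕ → ℕ → ℕ
  | 0, r => vinc r
  | n + 1, r => V n 4 r

/-- value of the left component after a crossing cut at the right end of `n` blocks -/
def decV : ℕ → ℕ → ℕ
  | 0, l => vinl l
  | n + 1, l => V n l 9

/-- the values of the cuts in a block with `i` blocks before and `m` blocks after it -/
def bulk (l r i m : ℕ) : List ℕ :=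
  [V i l 4 ^^^ V m 1 r, V i l 3 ^^^ V m 2 r, V i l 7 ^^^ V m 0 r, V i l 6 ^^^ incV m r]

/-- values of the left-hand options -/
def optL (n l r : ℕ) : List ℕ :=
  (LT l).map (fun e => e.c ^^^ (if e.cross then incV n r else V n e.ty r))

/-- values of the right-hand options -/
def optR (n l r : ℕ) : List ℕ :=
  (RT r).map (fun e => (if e.cross then decV n l else V n l e.ty) ^^^ e.c)

/-- the values of all options -/
def optVals (n l r : ℕ) : List ℕ :=
  optL n l r ++ optR n l r ++ (List.range n).flatMap (fun i => bulk l r i (n - 1 - i))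

theorem mem_optVals (n l r x : ℕ) : x ∈ optVals n l r ↔
    x ∈ optL n l r ∨ x ∈ optR n l r ∨ ∃ i m, i + m + 1 = n ∧ x ∈ bulk l r i m := by
  rw [optVals, List.mem_append, List.mem_append, or_assoc, List.mem_flatMap]
  constructor
  · rintro (h | h | ⟨i, hi, h⟩)
    · exact Or.inl h
    · exact Or.inr (Or.inl h)
    · rw [List.mem_range] at hi
      exact Or.inr (Or.inr ⟨i, n - 1 - i, by omega, h⟩)
  · rintro (h | h | ⟨i, m, him, h⟩)
    · exact Or.inl h
    · exact Or.inr (Or.inl h)
    · refine Or.inr (Or.inr ⟨i, ?_, ?_⟩)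
      · rw [List.mem_range]
        omega
      · obtain rfl : m = n - 1 - i := by omega
        exact h

/-- the mex condition, as a Boolean -/
def chk (n l r : ℕ) : Bool :=
  !((optVals n l r).contains (V n l r)) &&
    (List.range (V n l r)).all (fun u => (optVals n l r).contains u)

theorem chk_small : ∀ n < 7, ∀ l < 10, ∀ r < 10, chk n l r = true := by decide +kernel

theorem bulk_left (l r i m : ℕ) (h : 2 ≤ i) : bulk l r i m = bulk l r 2 m := by
  obtain ⟨j, rfl⟩ := Nat.exists_eq_add_of_le' h
  rfl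

theorem bulk_right (l r i m : ℕ) (h : 3 ≤ m) : bulk l r i m = bulk l r i 3 := by
  obtain ⟨j, rfl⟩ := Nat.exists_eq_add_of_le' h
  rfl

theorem mem_bulk_iff (n l r x : ℕ) (hn : 6 ≤ n) :
    (∃ i m, i + m + 1 = n ∧ x ∈ bulk l r i m) ↔ ∃ i m, i + m + 1 = 6 ∧ x ∈ bulk l r i m := by
  constructor
  · rintro ⟨i, m, him, h⟩
    by_cases hi : i ≤ 2
    · refine ⟨i, 5 - i, by omega, ?_⟩
      rw [bulk_right l r i (5 - i) (by omega)]
      rwa [bulk_right l r i m (by omega)] at h
    · by_cases hm : m ≤ 2
      · refine ⟨5 - m, m, by omega, ?_⟩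
        rw [bulk_left l r (5 - m) m (by omega)]
        rwa [bulk_left l r i m (by omega)] at h
      · refine ⟨2, 3, by omega, ?_⟩
        rwa [bulk_left l r i m (by omega), bulk_right l r 2 m (by omega)] at h
  · rintro ⟨i, m, him, h⟩
    by_cases hi : i ≤ 2
    · refine ⟨i, n - 1 - i, by omega, ?_⟩
      rw [bulk_right l r i (n - 1 - i) (by omega)]
      rwa [bulk_right l r i m (by omega)] at h
    · refine ⟨n - 1 - m, m, by omega, ?_⟩
      rw [bulk_left l r (n - 1 - m) m (by omega)]
      rwa [bulk_left l r i m (by omega)] at h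

theorem mem_optVals_big (n l r x : ℕ) (hn : 6 ≤ n) :
    x ∈ optVals n l r ↔ x ∈ optVals 6 l r := by
  rw [mem_optVals, mem_optVals, mem_bulk_iff n l r x hn]
  obtain ⟨k, rfl⟩ := Nat.exists_eq_add_of_le' hn
  exact Iff.rfl

theorem mex_ok (n l r : ℕ) (hl : l < 10) (hr : r < 10) :
    V n l r ∉ optVals n l r ∧ ∀ u < V n l r, u ∈ optVals n l r := by
  have key : ∀ n < 7, V n l r ∉ optVals n l r ∧ ∀ u < V n l r, u ∈ optVals n l r := by
    intro n hn
    have h := chk_small n hn l hl r hr
    rw [chk, Bool.and_eq_true, Bool.not_eq_true', List.all_eq_true] at h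
    obtain ⟨h1, h2⟩ := h
    refine ⟨?_, fun u hu => ?_⟩
    · intro h
      rw [← List.contains_iff_mem] at h
      rw [h1] at h
      exact absurd h (by simp)
    · have := h2 u (List.mem_range.2 hu)
      rwa [List.contains_iff_mem] at this
  by_cases hn : n < 7
  · exact key n hn
  · have hV : V n l r = V 6 l r := by
      obtain ⟨k, rfl⟩ := Nat.exists_eq_add_of_le' (show 2 ≤ n by omega)
      rfl
    rw [hV]
    obtain ⟨h1, h2⟩ := key 6 (by omega)
    exact ⟨fun h => h1 ((mem_optVals_big n l r _ (by omega)).1 h),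
      fun u hu => (mem_optVals_big n l r _ (by omega)).2 (h2 u hu)⟩

end Pool.Agent.W_MP_b7d892_co
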