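import Pool.Agent.W_MP_b7d892_co.Margin

set_option autoImplicit false

namespace Pool.Agent.W_MP_b7d892_co

theorem Lw_head : ∀ l < 10, Lw l = [] ∨ (Lw l).head? = some false := by decide

theorem NS_X {l : ℕ} (hl : l < 10) (n : ℕ) (t : List Bool) : NS (X (Lw l) n (false :: t)) := by
  rcases Lw_head l hl with h | h
  · rw [X, h, bp_eq_tl]
    exact NS_cons_false _
  · rw [List.head?_eq_some_iff] at h
    obtain ⟨s, hs⟩ := h
    rw [X, hs]
    exact NS_cons_false _

theorem lchk_spec {l : ℕ} (hl : l < 10) : moves (Lw l ++ [false]) = (LT l).map Entry.lword ∧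
    ∀ e ∈ LT l, neOK e.C = true ∧ nimValue e.C = e.c ∧ e.ty < 10 := by
  have h := lchk_all l hl
  rw [lchk, Bool.and_eq_true, beq_iff_eq, List.all_eq_true] at h
  refine ⟨h.1, fun e he => ?_⟩
  have h2 := h.2 e he
  simp only [Bool.and_eq_true, beq_iff_eq, decide_eq_true_eq] at h2
  obtain ⟨⟨⟨h3, h4⟩, h5⟩, h6⟩ := h2
  exact ⟨h3, by rw [ev_eq 12 _ h5, h4], h6⟩

theorem rchk_spec {r : ℕ} (hr : r < 10) : moves (Rw r) = (RT r).map Entry.rword ∧
    (∀ e ∈ RT r, nsOK e.C = true ∧ nimValue e.C = e.c ∧ e.ty < 10) ∧
    (∃ t, Rw r = false :: t ∧ nimValue (false :: true :: t) = vinc r) ∧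
    (∃ t, Rw r = t ++ [false] ∧ t = (Rw r).dropLast) := by
  have h := rchk_all r hr
  simp only [rchk, Bool.and_eq_true, beq_iff_eq, List.all_eq_true, decide_eq_true_eq] at h
  obtain ⟨⟨⟨⟨⟨h1, h2⟩, h3⟩, h4⟩, h5⟩, h6⟩ := h
  refine ⟨h1, fun e he => ?_, ?_, ?_⟩
  · obtain ⟨⟨⟨h7, h8⟩, h9⟩, h10⟩ := h2 e he
    exact ⟨h7, by rw [ev_eq 12 _ h9, h8], h10⟩
  · rw [List.head?_eq_some_iff] at h3
    obtain ⟨t, ht⟩ := h3
    rw [ht] at h5 h6
    refine ⟨t, ht, ?_⟩
    have h6' : (false :: true :: t).count true ≤ 12 := h6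
    rw [ev_eq 12 _ h6']
    exact h5
  · rw [List.getLast?_eq_some_iff] at h4
    obtain ⟨t, ht⟩ := h4
    exact ⟨t, ht, by rw [ht]; simp⟩

/-- The value of a left-hand option word. -/
theorem lword_dec {l : ℕ} (hl : l < 10) (n : ℕ) (t : List Bool) {e : Entry} (he : e ∈ LT l) :
    Dec (e.lword ++ tl n t) e.C
      (if e.cross then false :: true :: tl n t else X (Lw e.ty) n (false :: t)) := by
  obtain ⟨h1, h2⟩ := lchk_spec hl
  obtain ⟨h3, _, h5⟩ := h2 e he
  have hC := NE_of_neOK h3
  rw [Entry.lword]
  split_ifs with hc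
  · have := Dec.split hC (NS_cons_false (true :: tl n t))
    have e1 : e.C ++ false :: [false, true] ++ tl n t = e.C ++ false :: false :: true :: tl n t := by
      simp
    rw [e1]
    exact this
  · have := Dec.split hC (NS_X h5 n t)
    have e1 : e.C ++ false :: (Lw e.ty ++ [false]) ++ tl n t =
        e.C ++ false :: X (Lw e.ty) n (false :: t) := by
      rw [X, bp_eq_tl]
      simp
    rw [e1]
    exact this

/-- The value of a right-hand option word. -/
theorem rword_dec {r : ℕ} (hr : r < 10) (l : List Bool) (n : ℕ) {e : Entry} (he : e ∈ RT r) :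
    Dec (l ++ (bp n ++ e.rword)) (X l n (if e.cross then [true, false] else Rw e.ty)) e.C := by
  obtain ⟨_, h2, _⟩ := rchk_spec hr
  obtain ⟨h3, _, h5⟩ := h2 e he
  have hC := NS_of_nsOK h3
  rw [Entry.rword]
  split_ifs with hc
  · have := Dec.split (NE_append_false (l ++ (bp n ++ [true]))) hC
    have e1 : l ++ (bp n ++ ([true] ++ false :: false :: e.C)) =
        l ++ (bp n ++ [true]) ++ [false] ++ false :: e.C := by simp
    have e2 : X l n [true, false] = l ++ (bp n ++ [true]) ++ [false] := by simp [X]
    rw [e1, e2]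
    exact this
  · obtain ⟨_, _, _, t, ht, ht2⟩ := rchk_spec h5
    have := Dec.split (NE_append_false (l ++ (bp n ++ t))) hC
    have e1 : l ++ (bp n ++ ((Rw e.ty).dropLast ++ false :: false :: e.C)) =
        l ++ (bp n ++ t) ++ [false] ++ false :: e.C := by
      rw [← ht2]
      simp
    have e2 : X l n (Rw e.ty) = l ++ (bp n ++ t) ++ [false] := by
      rw [ht]
      simp [X]
    rw [e1, e2]
    exact this

theorem main_margin (N : ℕ) : ∀ n l r, l < 10 → r < 10 →
    (X (Lw l) n (Rw r)).count true = N → nimValue (X (Lw l) n (Rw r)) = V n l r := by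
  induction N using Nat.strong_induction_on with
  | _ N IH =>
  intro n l r hl hr hN
  obtain ⟨hR1, hR2, ⟨t, ht, hinc⟩, -⟩ := rchk_spec hr
  obtain ⟨hL1, hL2⟩ := lchk_spec hl
  have IH' : ∀ n' l' r', l' < 10 → r' < 10 → (X (Lw l') n' (Rw r')).count true < N →
      nimValue (X (Lw l') n' (Rw r')) = V n' l' r' := fun n' l' r' h1 h2 h3 =>
    IH _ h3 n' l' r' h1 h2 rfl
  -- the crossing values
  have hincV : ∀ m, (false :: true :: tl m t).count true < N →
      nimValue (false :: true :: tl m t) = incV m r := by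
    intro m hm
    rcases m with _ | m
    · exact hinc
    · rw [inc_succ] at hm ⊢
      rw [← ht] at hm ⊢
      exact IH' m 4 r (by norm_num) hr hm
  have hdecV : (X (Lw l) n [true, false]).count true < N →
      nimValue (X (Lw l) n [true, false]) = decV n l := by
    intro hm
    rcases n with _ | m
    · have h := vinl_all l hl
      have e1 : X (Lw l) 0 [true, false] = Lw l ++ [true, false] := by simp [X, bp]
      rw [e1, ev_eq 12 _ h.2, h.1]
      rfl
    · have e1 : X (Lw l) (m + 1) [true, false] = X (Lw l) m (Rw 9) := by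
        rw [X, X, bp_succ', List.append_assoc]
        rfl
      rw [e1] at hm ⊢
      exact IH' m l 9 hl (by norm_num) hm
  -- left-hand options
  have HL : ∀ e ∈ LT l, Move (X (Lw l) n (Rw r)) (e.lword ++ tl n t) →
      nimValue (e.lword ++ tl n t) = e.c ^^^ (if e.cross then incV n r else V n e.ty r) := by
    intro e he hm
    obtain ⟨h1, h2⟩ := lword_dec hl n t he
    obtain ⟨_, h4, h5⟩ := hL2 e he
    have hlt := hm.count_lt
    rw [h1, h4]
    congr 1
    split_ifs at h2 ⊢ with hc
    · exact hincV n (by omega)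
    · rw [← ht] at h2 ⊢
      exact IH' n e.ty r h5 hr (by omega)
  -- right-hand options
  have HR : ∀ e ∈ RT r, Move (X (Lw l) n (Rw r)) (Lw l ++ (bp n ++ e.rword)) →
      nimValue (Lw l ++ (bp n ++ e.rword)) =
        (if e.cross then decV n l else V n l e.ty) ^^^ e.c := by
    intro e he hm
    obtain ⟨h1, h2⟩ := rword_dec hr (Lw l) n he
    obtain ⟨_, h4, h5⟩ := hR2 e he
    have hlt := hm.count_lt
    rw [h1, h4]
    congr 1
    split_ifs at h2 ⊢ with hc
    · exact hdecV (by omega)
    · exact IH' n l e.ty hl h5 (by omega)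
  -- inner options
  have HB : ∀ i m, i + m + 1 = n → ∀ v ∈ moves (blk ++ [false]),
      Move (X (Lw l) n (Rw r)) (Lw l ++ (bp i ++ (v ++ tl m t))) →
      ((v = [false, true, false, true, true, false, false, false, true, true, false] →
        nimValue (Lw l ++ (bp i ++ (v ++ tl m t))) = V i l 4 ^^^ V m 1 r) ∧
      (v = [false, true, false, true, false, false, false, true, true, true, false] →
        nimValue (Lw l ++ (bp i ++ (v ++ tl m t))) = V i l 3 ^^^ V m 2 r) ∧
      (v = [false, true, false, true, false, true, true, true, false, false, false] →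
        nimValue (Lw l ++ (bp i ++ (v ++ tl m t))) = V i l 7 ^^^ V m 0 r) ∧
      (v = [false, true, false, true, false, true, true, false, false, false, true] →
        nimValue (Lw l ++ (bp i ++ (v ++ tl m t))) = V i l 6 ^^^ incV m r)) := by
    intro i m him v hv hm
    have hlt := hm.count_lt
    refine ⟨?_, ?_, ?_, ?_⟩
    · rintro rfl
      obtain ⟨h1, h2⟩ := kind1 (Lw l) i m t
      rw [h1]
      rw [← ht] at h2 ⊢
      have e1 : nimValue (X (Lw l) i R12) = V i l 4 := IH' i l 4 hl (by norm_num) (by
        change List.count true (X (Lw l) i R12) < N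
        omega)
      have e2 : nimValue (X L2 m (Rw r)) = V m 1 r := IH' m 1 r (by norm_num) hr (by
        change List.count true (X L2 m (Rw r)) < N
        omega)
      rw [e1, e2]
    · rintro rfl
      obtain ⟨h1, h2⟩ := kind2 (Lw l) i m t
      rw [h1]
      rw [← ht] at h2 ⊢
      have e1 : nimValue (X (Lw l) i R11) = V i l 3 := IH' i l 3 hl (by norm_num) (by
        change List.count true (X (Lw l) i R11) < N
        omega)
      have e2 : nimValue (X L3 m (Rw r)) = V m 2 r := IH' m 2 r (by norm_num) hr (by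
        change List.count true (X L3 m (Rw r)) < N
        omega)
      rw [e1, e2]
    · rintro rfl
      obtain ⟨h1, h2⟩ := kind3 (Lw l) i m t
      rw [h1]
      rw [← ht] at h2 ⊢
      have e1 : nimValue (X (Lw l) i R113) = V i l 7 := IH' i l 7 hl (by norm_num) (by
        change List.count true (X (Lw l) i R113) < N
        omega)
      have e2 : nimValue (X [] m (Rw r)) = V m 0 r := IH' m 0 r (by norm_num) hr (by
        change List.count true (X [] m (Rw r)) < N
        omega)
      rw [e1, e2]
    · rintro rfl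
      obtain ⟨h1, h2⟩ := kind4 (Lw l) i m t
      rw [h1]
      have e1 : nimValue (X (Lw l) i R112) = V i l 6 := IH' i l 6 hl (by norm_num) (by
        change List.count true (X (Lw l) i R112) < N
        omega)
      rw [e1, hincV m (by omega)]
  obtain ⟨hx1, hx2⟩ := mex_ok n l r hl hr
  apply nimValue_eq_of
  · intro w' hw' hval
    apply hx1
    rw [← hval, mem_optVals]
    clear hval
    have hw := (move_iff _ _).1 hw'
    rw [ht, mem_moves_X, ← ht] at hw
    rcases hw with ⟨v, hv, rfl⟩ | ⟨i, m, him, v, hv, rfl⟩ | ⟨v, hv, rfl⟩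
    · left
      rw [hL1, List.mem_map] at hv
      obtain ⟨e, he, rfl⟩ := hv
      rw [HL e he hw', optL, List.mem_map]
      exact ⟨e, he, rfl⟩
    · right; right
      refine ⟨i, m, him, ?_⟩
      obtain ⟨g1, g2, g3, g4⟩ := HB i m him v hv hw'
      rw [moves_blk] at hv
      simp only [List.mem_cons, List.not_mem_nil, or_false] at hv
      simp only [bulk, List.mem_cons, List.not_mem_nil, or_false]
      rcases hv with hv | hv | hv | hv
      · rw [g1 hv]
        simp
      · rw [g2 hv]
        simp
      · rw [g3 hv]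
        simp
      · rw [g4 hv]
        simp
    · right; left
      rw [hR1, List.mem_map] at hv
      obtain ⟨e, he, rfl⟩ := hv
      rw [HR e he hw', optR, List.mem_map]
      exact ⟨e, he, rfl⟩
  · intro u hu
    have hu' := hx2 u hu
    rw [mem_optVals] at hu'
    rcases hu' with h | h | ⟨i, m, him, h⟩
    · rw [optL, List.mem_map] at h
      obtain ⟨e, he, rfl⟩ := h
      have hmv : Move (X (Lw l) n (Rw r)) (e.lword ++ tl n t) := by
        rw [move_iff, ht, mem_moves_X]
        refine Or.inl ⟨_, ?_, rfl⟩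
        rw [hL1, List.mem_map]
        exact ⟨e, he, rfl⟩
      exact ⟨_, hmv, HL e he hmv⟩
    · rw [optR, List.mem_map] at h
      obtain ⟨e, he, rfl⟩ := h
      have hmv : Move (X (Lw l) n (Rw r)) (Lw l ++ (bp n ++ e.rword)) := by
        rw [move_iff, ht, mem_moves_X, ← ht]
        refine Or.inr (Or.inr ⟨_, ?_, rfl⟩)
        rw [hR1, List.mem_map]
        exact ⟨e, he, rfl⟩
      exact ⟨_, hmv, HR e he hmv⟩
    · have hmv : ∀ v ∈ moves (blk ++ [false]),
          Move (X (Lw l) n (Rw r)) (Lw l ++ (bp i ++ (v ++ tl m t))) := by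
        intro v hv
        rw [move_iff, ht, mem_moves_X]
        exact Or.inr (Or.inl ⟨i, m, him, v, hv, rfl⟩)
      have hmb : ∀ v, v ∈ moves (blk ++ [false]) ↔ _ := fun v => by rw [moves_blk]
      simp only [bulk, List.mem_cons, List.not_mem_nil, or_false] at h
      rcases h with h | h | h | h
      · have hv : [false, true, false, true, true, false, false, false, true, true, false] ∈
            moves (blk ++ [false]) := by rw [moves_blk]; simp
        exact ⟨_, hmv _ hv, by rw [(HB i m him _ hv (hmv _ hv)).1 rfl, h]⟩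
      · have hv : [false, true, false, true, false, false, false, true, true, true, false] ∈
            moves (blk ++ [false]) := by rw [moves_blk]; simp
        exact ⟨_, hmv _ hv, by rw [(HB i m him _ hv (hmv _ hv)).2.1 rfl, h]⟩
      · have hv : [false, true, false, true, false, true, true, true, false, false, false] ∈
            moves (blk ++ [false]) := by rw [moves_blk]; simp
        exact ⟨_, hmv _ hv, by rw [(HB i m him _ hv (hmv _ hv)).2.2.1 rfl, h]⟩
      · have hv : [false, true, false, true, false, true, true, false, false, false, true] ∈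
            moves (blk ++ [false]) := by rw [moves_blk]; simp
        exact ⟨_, hmv _ hv, by rw [(HB i m him _ hv (hmv _ hv)).2.2.2 rfl, h]⟩

/-- The values of the words with a margin. -/
theorem nim_X {n l r : ℕ} (hl : l < 10) (hr : r < 10) :
    nimValue (X (Lw l) n (Rw r)) = V n l r :=
  main_margin _ n l r hl hr rfl

end Pool.Agent.W_MP_b7d892_co
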