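import Pool.Agent.W_MP_b7d892_co.MarginMain

set_option autoImplicit false

namespace Pool.Agent.W_MP_b7d892_co

/-- the words whose last block touches the right end of the strip, with one more peg -/
def W (l n : ℕ) : List Bool := Lw l ++ (bp n ++ [true])

/-- their values -/
noncomputable def wv (l n : ℕ) : ℕ := nimValue (W l n)

/-- the last block with one more peg, without its first cell -/
def TT : List Bool := [true, false, true, false, true, true, false, true, true, true]

theorem W_succ (l k : ℕ) : W l (k + 1) = X (Lw l) k (false :: TT) := by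
  rw [W, X, bp_succ', List.append_assoc]
  rfl

theorem W_four (m : ℕ) : false :: true :: tl m TT = W 4 m := by
  rcases m with _ | m
  · rfl
  · rw [inc_succ, W_succ]
    rfl

theorem moves_TT : moves (false :: TT) =
    [[false, true, false, true, true, false, false, false, true, true, true],
     [false, true, false, true, false, false, false, true, true, true, true],
     [false, true, false, true, false, true, true, true, false, false, true]] := by
  decide

theorem kindT1 (l : List Bool) (k : ℕ) :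
    nimValue (l ++ (bp k ++ [false, true, false, true, true, false, false, false, true, true,
      true])) = nimValue (X l k R12) ^^^ wv 1 0 := by
  have h := (Dec.split3 (l ++ (bp k ++ [false, true, false, true, true])) [true, true, true]).1
  have e1 : l ++ (bp k ++ [false, true, false, true, true, false, false, false, true, true,
      true]) = l ++ (bp k ++ [false, true, false, true, true]) ++
        false :: false :: false :: [true, true, true] := by simp
  have e3 : X l k R12 = l ++ (bp k ++ [false, true, false, true, true]) ++ [false] := by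
    simp [X, R12]
  rw [e1, e3]
  exact h

theorem kindT2 (l : List Bool) (k : ℕ) :
    nimValue (l ++ (bp k ++ [false, true, false, true, false, false, false, true, true, true,
      true])) = nimValue (X l k R11) ^^^ wv 2 0 := by
  have h := (Dec.split3 (l ++ (bp k ++ [false, true, false, true])) [true, true, true, true]).1
  have e1 : l ++ (bp k ++ [false, true, false, true, false, false, false, true, true, true,
      true]) = l ++ (bp k ++ [false, true, false, true]) ++
        false :: false :: false :: [true, true, true, true] := by simp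
  have e3 : X l k R11 = l ++ (bp k ++ [false, true, false, true]) ++ [false] := by
    simp [X, R11]
  rw [e1, e3]
  exact h

theorem kindT3 (l : List Bool) (k : ℕ) :
    nimValue (l ++ (bp k ++ [false, true, false, true, false, true, true, true, false, false,
      true])) = nimValue (X l k R113) ^^^ wv 0 0 := by
  have hZ : NS [true] := NS_of_nsOK (by decide)
  have h := (Dec.split (NE_append_false (l ++ (bp k ++ [false, true, false, true, false, true,
    true, true]))) hZ).1
  have e1 : l ++ (bp k ++ [false, true, false, true, false, true, true, true, false, false,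
      true]) = l ++ (bp k ++ [false, true, false, true, false, true, true, true]) ++
        [false] ++ false :: [true] := by simp
  have e3 : X l k R113 = l ++ (bp k ++ [false, true, false, true, false, true, true, true]) ++
      [false] := by
    simp [X, R113]
  rw [e1, e3]
  exact h

/-- the values of the options of `W l (k + 1)` -/
def OV (l k : ℕ) (x : ℕ) : Prop :=
  (∃ e ∈ LT l, x = e.c ^^^ (if e.cross then wv 4 k else wv e.ty (k + 1))) ∨
  (∃ i m, i + m = k ∧ (x = V i l 4 ^^^ wv 1 m ∨ x = V i l 3 ^^^ wv 2 m ∨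
    x = V i l 7 ^^^ wv 0 m)) ∨
  (∃ i m, i + m + 1 = k ∧ x = V i l 6 ^^^ wv 4 m)

theorem nim_XR12 {l : ℕ} (hl : l < 10) (i : ℕ) : nimValue (X (Lw l) i R12) = V i l 4 :=
  nim_X (r := 4) hl (by norm_num)

theorem nim_XR11 {l : ℕ} (hl : l < 10) (i : ℕ) : nimValue (X (Lw l) i R11) = V i l 3 :=
  nim_X (r := 3) hl (by norm_num)

theorem nim_XR113 {l : ℕ} (hl : l < 10) (i : ℕ) : nimValue (X (Lw l) i R113) = V i l 7 :=
  nim_X (r := 7) hl (by norm_num)

theorem nim_XR112 {l : ℕ} (hl : l < 10) (i : ℕ) : nimValue (X (Lw l) i R112) = V i l 6 :=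
  nim_X (r := 6) hl (by norm_num)

theorem OV_iff {l : ℕ} (hl : l < 10) (k x : ℕ) :
    (∃ w', Move (W l (k + 1)) w' ∧ nimValue w' = x) ↔ OV l k x := by
  obtain ⟨hL1, hL2⟩ := lchk_spec hl
  have HL : ∀ e ∈ LT l, nimValue (e.lword ++ tl k TT) =
      e.c ^^^ (if e.cross then wv 4 k else wv e.ty (k + 1)) := by
    intro e he
    rw [(lword_dec hl k TT he).1, (hL2 e he).2.1]
    congr 1
    split_ifs with hc
    · rw [W_four]
      rfl
    · rw [wv, W_succ]
  have B1 : ∀ i m, nimValue (Lw l ++ (bp i ++ ([false, true, false, true, true, false, false,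
      false, true, true, false] ++ tl m TT))) = V i l 4 ^^^ wv 1 (m + 1) := by
    intro i m
    rw [(kind1 (Lw l) i m TT).1, nim_XR12 hl, wv, W_succ]
    rfl
  have B2 : ∀ i m, nimValue (Lw l ++ (bp i ++ ([false, true, false, true, false, false, false,
      true, true, true, false] ++ tl m TT))) = V i l 3 ^^^ wv 2 (m + 1) := by
    intro i m
    rw [(kind2 (Lw l) i m TT).1, nim_XR11 hl, wv, W_succ]
    rfl
  have B3 : ∀ i m, nimValue (Lw l ++ (bp i ++ ([false, true, false, true, false, true, true,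
      true, false, false, false] ++ tl m TT))) = V i l 7 ^^^ wv 0 (m + 1) := by
    intro i m
    rw [(kind3 (Lw l) i m TT).1, nim_XR113 hl, wv, W_succ]
    rfl
  have B4 : ∀ i m, nimValue (Lw l ++ (bp i ++ ([false, true, false, true, false, true, true,
      false, false, false, true] ++ tl m TT))) = V i l 6 ^^^ wv 4 m := by
    intro i m
    rw [(kind4 (Lw l) i m TT).1, nim_XR112 hl, W_four]
    rfl
  constructor
  · rintro ⟨w', hw', rfl⟩
    rw [move_iff, W_succ, mem_moves_X] at hw'
    rcases hw' with ⟨v, hv, rfl⟩ | ⟨i, m, him, v, hv, rfl⟩ | ⟨v, hv, rfl⟩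
    · left
      rw [hL1, List.mem_map] at hv
      obtain ⟨e, he, rfl⟩ := hv
      exact ⟨e, he, HL e he⟩
    · rw [moves_blk] at hv
      simp only [List.mem_cons, List.not_mem_nil, or_false] at hv
      rcases hv with rfl | rfl | rfl | rfl
      · exact Or.inr (Or.inl ⟨i, m + 1, by omega, Or.inl (B1 i m)⟩)
      · exact Or.inr (Or.inl ⟨i, m + 1, by omega, Or.inr (Or.inl (B2 i m))⟩)
      · exact Or.inr (Or.inl ⟨i, m + 1, by omega, Or.inr (Or.inr (B3 i m))⟩)
      · exact Or.inr (Or.inr ⟨i, m, by omega, B4 i m⟩)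
    · rw [moves_TT] at hv
      simp only [List.mem_cons, List.not_mem_nil, or_false] at hv
      rcases hv with rfl | rfl | rfl
      · exact Or.inr (Or.inl ⟨k, 0, by omega, Or.inl (by rw [kindT1, nim_XR12 hl])⟩)
      · exact Or.inr (Or.inl ⟨k, 0, by omega, Or.inr (Or.inl (by rw [kindT2, nim_XR11 hl]))⟩)
      · exact Or.inr (Or.inl ⟨k, 0, by omega, Or.inr (Or.inr (by rw [kindT3, nim_XR113 hl]))⟩)
  · have hB : ∀ i m, i + m + 1 = k → ∀ v ∈ moves (blk ++ [false]),
        Move (W l (k + 1)) (Lw l ++ (bp i ++ (v ++ tl m TT))) := by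
      intro i m him v hv
      rw [move_iff, W_succ, mem_moves_X]
      exact Or.inr (Or.inl ⟨i, m, him, v, hv, rfl⟩)
    have hT : ∀ v ∈ moves (false :: TT), Move (W l (k + 1)) (Lw l ++ (bp k ++ v)) := by
      intro v hv
      rw [move_iff, W_succ, mem_moves_X]
      exact Or.inr (Or.inr ⟨v, hv, rfl⟩)
    rintro (⟨e, he, rfl⟩ | ⟨i, m, him, h⟩ | ⟨i, m, him, rfl⟩)
    · refine ⟨e.lword ++ tl k TT, ?_, HL e he⟩
      rw [move_iff, W_succ, mem_moves_X]
      refine Or.inl ⟨_, ?_, rfl⟩
      rw [hL1, List.mem_map]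
      exact ⟨e, he, rfl⟩
    · rcases m with _ | m
      · obtain rfl : i = k := by omega
        rcases h with rfl | rfl | rfl
        · exact ⟨_, hT [false, true, false, true, true, false, false, false, true, true, true]
            (by rw [moves_TT]; simp), by rw [kindT1, nim_XR12 hl]⟩
        · exact ⟨_, hT [false, true, false, true, false, false, false, true, true, true, true]
            (by rw [moves_TT]; simp), by rw [kindT2, nim_XR11 hl]⟩
        · exact ⟨_, hT [false, true, false, true, false, true, true, true, false, false, true]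
            (by rw [moves_TT]; simp), by rw [kindT3, nim_XR113 hl]⟩
      · rcases h with rfl | rfl | rfl
        · exact ⟨_, hB i m (by omega) _ (by rw [moves_blk]; simp), B1 i m⟩
        · exact ⟨_, hB i m (by omega) _ (by rw [moves_blk]; simp), B2 i m⟩
        · exact ⟨_, hB i m (by omega) _ (by rw [moves_blk]; simp), B3 i m⟩
    · exact ⟨_, hB i m (by omega) _ (by rw [moves_blk]; simp), B4 i m⟩

theorem wv_eq_of {l : ℕ} (hl : l < 10) (k v : ℕ) (h1 : ¬ OV l k v) (h2 : ∀ u < v, OV l k u) :
    wv l (k + 1) = v := by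
  apply nimValue_eq_of
  · intro w' hw' h
    exact h1 ((OV_iff hl k v).1 ⟨w', hw', h⟩)
  · intro u hu
    exact (OV_iff hl k u).2 (h2 u hu)

theorem wv_ne {l : ℕ} (hl : l < 10) (k v : ℕ) (h1 : OV l k v) : wv l (k + 1) ≠ v := by
  obtain ⟨w', hw', h⟩ := (OV_iff hl k v).2 h1
  rw [← h]
  exact (nimValue_ne hw').symm

theorem wv_le {l : ℕ} (hl : l < 10) (k v : ℕ) (h1 : ¬ OV l k v) : wv l (k + 1) ≤ v := by
  apply nimValue_le
  intro w' hw' h
  exact h1 ((OV_iff hl k v).1 ⟨w', hw', h⟩)

/-! ### Arithmetic of small nim-sums -/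

theorem xor_split (a b : ℕ) : a ^^^ b = 2 * (a / 2 ^^^ b / 2) + (a + b) % 2 := by
  have h1 : (a ^^^ b) / 2 = a / 2 ^^^ b / 2 := Nat.xor_div_two
  have h2 : (a ^^^ b) % 2 = (a + b) % 2 := Nat.xor_mod_two_eq
  omega

theorem one_xor_even (m : ℕ) : 1 ^^^ (2 * m) = 2 * m + 1 := by
  rw [xor_split]
  have h1 : 1 / 2 = 0 := rfl
  have h2 : 2 * m / 2 = m := by omega
  rw [h1, h2, Nat.zero_xor]
  omega

theorem one_xor_odd (m : ℕ) : 1 ^^^ (2 * m + 1) = 2 * m := by
  rw [xor_split]
  have h1 : 1 / 2 = 0 := rfl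
  have h2 : (2 * m + 1) / 2 = m := by omega
  rw [h1, h2, Nat.zero_xor]
  omega

theorem two_xor_even (m : ℕ) : 2 ^^^ (2 * m) = 2 * (1 ^^^ m) := by
  rw [xor_split]
  have h1 : 2 / 2 = 1 := rfl
  have h2 : 2 * m / 2 = m := by omega
  rw [h1, h2]
  omega

theorem three_xor_even (m : ℕ) : 3 ^^^ (2 * m) = 2 * (1 ^^^ m) + 1 := by
  rw [xor_split]
  have h1 : 3 / 2 = 1 := rfl
  have h2 : 2 * m / 2 = m := by omega
  rw [h1, h2]
  omega

theorem three_xor_odd (m : ℕ) : 3 ^^^ (2 * m + 1) = 2 * (1 ^^^ m) := by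
  rw [xor_split]
  have h1 : 3 / 2 = 1 := rfl
  have h2 : (2 * m + 1) / 2 = m := by omega
  rw [h1, h2]
  omega

theorem xor_parity (a b : ℕ) : (a ^^^ b) % 2 = (a + b) % 2 := Nat.xor_mod_two_eq

theorem xor_ne_self {a b : ℕ} (ha : a ≠ 0) : a ^^^ b ≠ b := by
  intro h
  apply ha
  have : a ^^^ b ^^^ b = b ^^^ b := by rw [h]
  rwa [Nat.xor_assoc, Nat.xor_self, Nat.xor_zero] at this

theorem one_xor_cases (m : ℕ) : (m % 2 = 0 ∧ 1 ^^^ m = m + 1) ∨ (m % 2 = 1 ∧ 1 ^^^ m = m - 1) := by
  rcases Nat.even_or_odd' m with ⟨c, rfl | rfl⟩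
  · left
    exact ⟨by omega, one_xor_even c⟩
  · right
    refine ⟨by omega, ?_⟩
    rw [one_xor_odd]
    omega

/-! ### The table entries that are used -/

theorem V_0_3 (i : ℕ) : V i 0 3 = 0 := by rcases i with _ | _ | i <;> rfl
theorem V_0_7 (i : ℕ) : V i 0 7 = 1 := by rcases i with _ | _ | i <;> rfl
theorem V_0_6 (i : ℕ) : V i 0 6 = 1 := by rcases i with _ | _ | i <;> rfl
theorem V_0_4 (i : ℕ) : V i 0 4 % 2 = 0 := by rcases i with _ | _ | i <;> rfl
theorem V_1_4 (i : ℕ) : V i 1 4 = 1 := by rcases i with _ | _ | i <;> rfl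
theorem V_1_3 (i : ℕ) : V i 1 3 = 1 := by rcases i with _ | _ | i <;> rfl
theorem V_1_7 (i : ℕ) : V i 1 7 = 0 := by rcases i with _ | _ | i <;> rfl
theorem V_1_6 (i : ℕ) : V i 1 6 = 0 := by rcases i with _ | _ | i <;> rfl
theorem V_2_4 (i : ℕ) : V (i + 1) 2 4 = 3 := by rcases i with _ | i <;> rfl
theorem V_2_3 (i : ℕ) : V i 2 3 = 1 := by rcases i with _ | _ | i <;> rfl
theorem V_2_7 (i : ℕ) : V i 2 7 = 0 := by rcases i with _ | _ | i <;> rfl
theorem V_2_6 (i : ℕ) : V i 2 6 = 0 := by rcases i with _ | _ | i <;> rfl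
theorem V_4_4 (i : ℕ) : V i 4 4 = 0 := by rcases i with _ | _ | i <;> rfl
theorem V_4_3 (i : ℕ) : V i 4 3 = 0 := by rcases i with _ | _ | i <;> rfl
theorem V_4_7 (i : ℕ) : V i 4 7 = 3 := by rcases i with _ | _ | i <;> rfl
theorem V_4_6 (i : ℕ) : V i 4 6 = 1 := by rcases i with _ | _ | i <;> rfl
theorem V_3_4 (i : ℕ) : V i 3 4 = 1 := by rcases i with _ | _ | i <;> rfl
theorem V_3_3 (i : ℕ) : V (i + 1) 3 3 = 3 := by rcases i with _ | i <;> rfl
theorem V_3_7 (i : ℕ) : V i 3 7 = 2 := by rcases i with _ | _ | i <;> rfl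
theorem V_3_6 (i : ℕ) : V i 3 6 = 2 := by rcases i with _ | _ | i <;> rfl

end Pool.Agent.W_MP_b7d892_co
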