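import Pool.Agent.W_MP_b7d892_co.Words

set_option autoImplicit false

namespace Pool.Agent.W_MP_b7d892_co

/-! ### A computable evaluator for short words -/

/-- the least natural number not in a list -/
def mexl (s : List ℕ) : ℕ :=
  ((List.range (s.length + 1)).find? (fun n => !(s.contains n))).getD 0

theorem mexl_spec (s : List ℕ) : mexl s ∉ s ∧ ∀ u < mexl s, u ∈ s := by
  rcases h : (List.range (s.length + 1)).find? (fun n => !(s.contains n)) with _ | v
  · exfalso
    rw [List.find?_eq_none] at h
    have hsub : List.range (s.length + 1) ⊆ s := by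
      intro x hx
      have := h x hx
      simpa using this
    have := (List.nodup_range (n := s.length + 1)).subperm hsub |>.length_le
    simp at this
  · have hm : mexl s = v := by
      rw [mexl, h]
      rfl
    rw [hm]
    rw [List.find?_range_eq_some] at h
    obtain ⟨h1, h2, h3⟩ := h
    refine ⟨by simpa using h1, fun u hu => ?_⟩
    have := h3 u hu
    simpa using this

/-- the nim-value, computed with fuel -/
def ev : ℕ → List Bool → ℕ
  | 0, _ => 0
  | f + 1, w => mexl ((moves w).map (ev f))

theorem ev_eq (f : ℕ) : ∀ w : List Bool, w.count true ≤ f → nimValue w = ev f w := by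
  induction f with
  | zero =>
    intro w hw
    apply nimValue_eq_of
    · intro w' hw'
      have := hw'.count_lt
      omega
    · intro u hu
      simp [ev] at hu
  | succ f ih =>
    intro w hw
    obtain ⟨h1, h2⟩ := mexl_spec ((moves w).map (ev f))
    apply nimValue_eq_of
    · intro w' hw' h
      have hlt := hw'.count_lt
      rw [ih w' (by omega)] at h
      apply h1
      rw [List.mem_map]
      exact ⟨w', (move_iff _ _).1 hw', h⟩
    · intro u hu
      have := h2 u hu
      rw [List.mem_map] at this
      obtain ⟨w', hw', h⟩ := this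
      rw [← move_iff] at hw'
      have hlt := hw'.count_lt
      exact ⟨w', hw', by rw [ih w' (by omega), h]⟩

/-! ### Finite tables -/

/-- one option of an outer part: an inert or finished component `C` of value `c`, and the type of
the other component (`cross` says that the move crosses into the neighbouring block) -/
structure Entry where
  C : List Bool
  c : ℕ
  ty : ℕ
  cross : Bool

def LL : List (List Bool) :=
  [[],
   [false, true, true],
   [false, true, true, true],
   [false, true],
   [false, true, true, false, true, false, true, true, false, true, true],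
   [false, true, false, true, true, false, true, true],
   [false, true, true, false, true, true, false, true, true],
   [false, true, true, false, true, true],
   [false, true, true, true, false, true, true],
   [false, true, false, true, true]]

def RR : List (List Bool) :=
  [[false],
   [false, true, false],
   [false, true, true, false],
   [false, true, false, true, false],
   [false, true, false, true, true, false],
   [false, true, false, true, false, true, false],
   [false, true, false, true, false, true, true, false],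
   [false, true, false, true, false, true, true, true, false],
   [false, true, false, true, false, true, true, false, true, false],
   [false, true, false, true, false, true, true, false, true, true, true, false]]

def T0 : List (List ℕ) :=
  [[0, 0, 1, 0, 2, 0, 1, 1, 0, 2],
   [1, 2, 0, 1, 1, 2, 0, 0, 2, 3],
   [1, 2, 3, 1, 4, 2, 0, 0, 2, 3],
   [0, 0, 2, 0, 1, 0, 2, 2, 0, 1],
   [0, 1, 2, 0, 0, 1, 1, 3, 3, 2],
   [3, 0, 0, 3, 1, 0, 2, 2, 0, 1],
   [1, 0, 0, 1, 2, 0, 0, 5, 4, 6],
   [0, 3, 1, 0, 0, 3, 1, 1, 3, 2],
   [3, 1, 2, 2, 0, 1, 3, 3, 1, 0],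
   [2, 0, 3, 0, 1, 0, 2, 2, 0, 1]]

def T1 : List (List ℕ) :=
  [[0, 3, 1, 0, 0, 3, 1, 1, 3, 2],
   [1, 2, 0, 1, 1, 2, 0, 0, 2, 3],
   [1, 2, 5, 1, 3, 2, 0, 0, 2, 3],
   [3, 0, 0, 3, 1, 0, 2, 2, 0, 1],
   [0, 1, 1, 0, 0, 1, 1, 3, 4, 2],
   [3, 0, 2, 3, 1, 0, 2, 2, 0, 1],
   [1, 2, 0, 1, 1, 2, 0, 0, 2, 3],
   [0, 3, 1, 0, 0, 3, 1, 1, 3, 2],
   [2, 1, 6, 2, 2, 1, 3, 3, 1, 0],
   [3, 0, 4, 3, 3, 0, 2, 2, 0, 1]]

def T2 : List (List ℕ) :=
  [[0, 3, 1, 0, 0, 3, 1, 1, 3, 2],
   [1, 2, 0, 1, 1, 2, 0, 0, 2, 3],
   [1, 2, 0, 1, 3, 2, 0, 0, 2, 3],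
   [3, 0, 2, 3, 1, 0, 2, 2, 0, 1],
   [0, 1, 1, 0, 0, 1, 1, 3, 4, 2],
   [3, 0, 2, 3, 1, 0, 2, 2, 0, 1],
   [1, 2, 0, 1, 1, 2, 0, 0, 2, 3],
   [0, 3, 1, 0, 0, 3, 1, 1, 3, 2],
   [2, 1, 3, 2, 2, 1, 3, 3, 1, 0],
   [3, 0, 2, 3, 4, 0, 2, 2, 0, 1]]

def VI : List ℕ := [0, 1, 1, 2, 0, 1, 1, 4, 1, 0]

def VL : List ℕ := [0, 1, 0, 1, 0, 1, 2, 3, 1, 2]

def LTT : List (List Entry) :=
  [[],
   [⟨[true, false], 0, 0, false⟩,
    ⟨[false], 0, 4, true⟩],
   [⟨[true], 0, 3, false⟩,
    ⟨[false, true], 0, 4, true⟩],
   [],
   [⟨[true, false], 0, 5, false⟩,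
    ⟨[false], 0, 6, false⟩,
    ⟨[false, true, true, false, true, true, false], 0, 1, false⟩,
    ⟨[false, true, true, false, true, false], 2, 2, false⟩,
    ⟨[false, true, true, false, true, false, true, true, true, false], 4, 0, false⟩,
    ⟨[false, true, true, false, true, false, true, true, false], 1, 4, true⟩],
   [⟨[false, true, true, false], 1, 1, false⟩,
    ⟨[false, true, false], 0, 2, false⟩,
    ⟨[false, true, false, true, true, true, false], 2, 0, false⟩,
    ⟨[false, true, false, true, true, false], 2, 4, true⟩],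
   [⟨[true, false], 0, 7, false⟩,
    ⟨[false], 0, 8, false⟩,
    ⟨[false, true, true, true, false], 1, 1, false⟩,
    ⟨[false, true, true, false], 1, 2, false⟩,
    ⟨[false, true, true, false, true, true, true, false], 3, 0, false⟩,
    ⟨[false, true, true, false, true, true, false], 0, 4, true⟩],
   [⟨[true, false], 0, 1, false⟩,
    ⟨[false], 0, 2, false⟩,
    ⟨[false, true, true, true, false], 1, 0, false⟩,
    ⟨[false, true, true, false], 1, 4, true⟩],
   [⟨[true], 0, 9, false⟩,
    ⟨[false, true], 0, 2, false⟩,
    ⟨[false, true, true, true, true, false], 0, 0, false⟩,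
    ⟨[false, true, true, true, false], 1, 4, true⟩],
   [⟨[false, true, true, false], 1, 0, false⟩,
    ⟨[false, true, false], 0, 4, true⟩]]

def RTT : List (List Entry) :=
  [[],
   [],
   [⟨[false], 0, 9, true⟩,
    ⟨[false, true], 0, 0, false⟩],
   [],
   [⟨[false], 0, 2, false⟩,
    ⟨[false, true], 0, 1, false⟩],
   [],
   [⟨[false], 0, 4, false⟩,
    ⟨[false, true], 0, 3, false⟩],
   [⟨[true, false], 0, 4, false⟩,
    ⟨[true], 0, 5, false⟩],
   [⟨[false, true, false], 0, 4, false⟩,
    ⟨[false, true, true, false], 1, 3, false⟩],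
   [⟨[false, true, true, true, false], 1, 4, false⟩,
    ⟨[false, true, true, true, true, false], 0, 3, false⟩,
    ⟨[true, false], 0, 7, false⟩,
    ⟨[true], 0, 8, false⟩]]

def Lw (l : ℕ) : List Bool := LL.getD l []
def Rw (r : ℕ) : List Bool := RR.getD r []
def LT (l : ℕ) : List Entry := LTT.getD l []
def RT (r : ℕ) : List Entry := RTT.getD r []
def vinc (r : ℕ) : ℕ := VI.getD r 0
def vinl (l : ℕ) : ℕ := VL.getD l 0

/-- the table of values -/
def V : ℕ → ℕ → ℕ → ℕ
  | 0, l, r => (T0.getD l []).getD r 0
  | 1, l, r => (T1.getD l []).getD r 0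
  | _ + 2, l, r => (T2.getD l []).getD r 0

/-- the word left by a left-hand option -/
def Entry.lword (e : Entry) : List Bool :=
  e.C ++ false :: (if e.cross then [false, true] else Lw e.ty ++ [false])

/-- the word left by a right-hand option -/
def Entry.rword (e : Entry) : List Bool :=
  (if e.cross then [true] else (Rw e.ty).dropLast) ++ false :: false :: e.C

/-- a simple sufficient condition for `NE` -/
def neOK (C : List Bool) : Bool :=
  C.getLast? == some false || (moves C == [] && !(C.reverse.take 2 == [true, true]))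

/-- a simple sufficient condition for `NS` -/
def nsOK (C : List Bool) : Bool :=
  C.head? == some false || (moves C == [] && !(C.take 2 == [true, true]))

theorem NE_of_neOK {C : List Bool} (h : neOK C = true) : NE C := by
  rw [neOK, Bool.or_eq_true] at h
  rcases h with h | h
  · rw [beq_iff_eq, List.getLast?_eq_some_iff] at h
    obtain ⟨t, rfl⟩ := h
    exact NE_append_false t
  · rw [Bool.and_eq_true, beq_iff_eq, Bool.not_eq_true', beq_eq_false_iff_ne] at h
    intro w' hw' t ht
    rw [reach_of_moves_nil h.1 hw'] at ht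
    apply h.2
    rw [ht]
    simp

theorem NS_of_nsOK {C : List Bool} (h : nsOK C = true) : NS C := by
  rw [nsOK, Bool.or_eq_true] at h
  rcases h with h | h
  · rw [beq_iff_eq, List.head?_eq_some_iff] at h
    obtain ⟨t, rfl⟩ := h
    exact NS_cons_false t
  · rw [Bool.and_eq_true, beq_iff_eq, Bool.not_eq_true', beq_eq_false_iff_ne] at h
    intro w' hw' t ht
    rw [reach_of_moves_nil h.1 hw'] at ht
    apply h.2
    rw [ht]
    simp

/-- the finite check of the left-hand table -/
def lchk (l : ℕ) : Bool :=
  (moves (Lw l ++ [false]) == (LT l).map Entry.lword) &&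
  (LT l).all (fun e => neOK e.C && (ev 12 e.C == e.c) && decide (e.C.count true ≤ 12) &&
    decide (e.ty < 10))

/-- the finite check of the right-hand table -/
def rchk (r : ℕ) : Bool :=
  (moves (Rw r) == (RT r).map Entry.rword) &&
  (RT r).all (fun e => nsOK e.C && (ev 12 e.C == e.c) && decide (e.C.count true ≤ 12) &&
    decide (e.ty < 10)) && ((Rw r).head? == some false) && ((Rw r).getLast? == some false) &&
    (ev 12 (false :: true :: (Rw r).tail) == vinc r) &&
    decide ((false :: true :: (Rw r).tail).count true ≤ 12)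

theorem lchk_all : ∀ l < 10, lchk l = true := by decide +kernel

theorem rchk_all : ∀ r < 10, rchk r = true := by decide +kernel

theorem vinl_all : ∀ l < 10, ev 12 (Lw l ++ [true, false]) = vinl l ∧
    (Lw l ++ [true, false]).count true ≤ 12 := by decide +kernel

end Pool.Agent.W_MP_b7d892_co
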