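import Pool.Agent.W_MP_b7d892_co.Basic

set_option autoImplicit false

namespace Pool.Agent.W_MP_b7d892_co

theorem mem_moves_cons3 (a b c : Bool) (t w' : List Bool) :
    w' ∈ moves (a :: b :: c :: t) ↔
      ((a = true ∧ b = true ∧ c = false) ∧ w' = false :: false :: true :: t) ∨
      ((a = false ∧ b = true ∧ c = true) ∧ w' = true :: false :: false :: t) ∨
      (∃ v ∈ moves (b :: c :: t), w' = a :: v) := by
  rw [moves]
  simp only [List.mem_append, List.mem_map]
  constructor
  · rintro ((h | h) | ⟨v, hv, rfl⟩)
    · split_ifs at h with hc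
      · exact Or.inl ⟨hc, List.mem_singleton.1 h⟩
      · simp at h
    · split_ifs at h with hc
      · exact Or.inr (Or.inl ⟨hc, List.mem_singleton.1 h⟩)
      · simp at h
    · exact Or.inr (Or.inr ⟨v, hv, rfl⟩)
  · rintro (⟨hc, rfl⟩ | ⟨hc, rfl⟩ | ⟨v, hv, rfl⟩)
    · left; left
      rw [if_pos hc]
      simp
    · left; right
      rw [if_pos hc]
      simp
    · exact Or.inr ⟨v, hv, rfl⟩

theorem moves_mid (l t : List Bool) : ∀ w', w' ∈ moves (l ++ false :: t) ↔
    (∃ v ∈ moves (l ++ [false]), w' = v ++ t) ∨
      (∃ v ∈ moves (false :: t), w' = l ++ v) := by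
  induction l with
  | nil =>
    intro w'
    simp [moves]
  | cons a l ih =>
    intro w'
    rcases l with _ | ⟨b, _ | ⟨c, l⟩⟩
    · simp only [List.cons_append, List.nil_append] at ih ⊢
      rcases t with _ | ⟨z, t⟩
      · simp [moves]
      · rw [mem_moves_cons3]
        simp [moves]
    · simp only [List.cons_append, List.nil_append] at ih ⊢
      rw [mem_moves_cons3]
      simp only [mem_moves_cons3, ih]
      constructor
      · rintro (⟨hc, rfl⟩ | ⟨hc, rfl⟩ | ⟨v, (⟨u, hu, rfl⟩ | ⟨u, hu, rfl⟩), rfl⟩)
        · exact Or.inl ⟨_, Or.inl ⟨hc, rfl⟩, rfl⟩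
        · exact Or.inl ⟨_, Or.inr (Or.inl ⟨hc, rfl⟩), rfl⟩
        · exact Or.inl ⟨_, Or.inr (Or.inr ⟨u, hu, rfl⟩), rfl⟩
        · exact Or.inr ⟨u, hu, rfl⟩
      · rintro (⟨v, (⟨hc, rfl⟩ | ⟨hc, rfl⟩ | ⟨u, hu, rfl⟩), rfl⟩ | ⟨u, hu, rfl⟩)
        · exact Or.inl ⟨hc, rfl⟩
        · exact Or.inr (Or.inl ⟨hc, rfl⟩)
        · exact Or.inr (Or.inr ⟨u ++ t, Or.inl ⟨u, hu, rfl⟩, rfl⟩)
        · exact Or.inr (Or.inr ⟨b :: u, Or.inr ⟨u, hu, rfl⟩, rfl⟩)
    · simp only [List.cons_append] at ih ⊢
      rw [mem_moves_cons3]
      simp only [mem_moves_cons3 a b c, ih]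
      constructor
      · rintro (⟨hc, rfl⟩ | ⟨hc, rfl⟩ | ⟨v, (⟨u, hu, rfl⟩ | ⟨u, hu, rfl⟩), rfl⟩)
        · exact Or.inl ⟨_, Or.inl ⟨hc, rfl⟩, by simp⟩
        · exact Or.inl ⟨_, Or.inr (Or.inl ⟨hc, rfl⟩), by simp⟩
        · exact Or.inl ⟨_, Or.inr (Or.inr ⟨u, hu, rfl⟩), rfl⟩
        · exact Or.inr ⟨u, hu, rfl⟩
      · rintro (⟨v, (⟨hc, rfl⟩ | ⟨hc, rfl⟩ | ⟨u, hu, rfl⟩), rfl⟩ | ⟨u, hu, rfl⟩)
        · exact Or.inl ⟨hc, by simp⟩
        · exact Or.inr (Or.inl ⟨hc, by simp⟩)
        · exact Or.inr (Or.inr ⟨u ++ t, Or.inl ⟨u, hu, rfl⟩, rfl⟩)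
        · exact Or.inr (Or.inr ⟨b :: c :: (l ++ u), Or.inr ⟨u, hu, rfl⟩, rfl⟩)

/-- the basic block -/
def blk : List Bool := [false, true, false, true, false, true, true, false, true, true]

/-- `n` copies of the basic block -/
def bp : ℕ → List Bool
  | 0 => []
  | n + 1 => blk ++ bp n

theorem bp_zero : bp 0 = [] := rfl

theorem bp_succ (n : ℕ) : bp (n + 1) = blk ++ bp n := rfl

theorem bp_succ' (n : ℕ) : bp (n + 1) = bp n ++ blk := by
  induction n with
  | zero => simp [bp]
  | succ n ih => rw [bp_succ, ih, ← List.append_assoc, ← bp_succ, ih]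

theorem bp_add (m n : ℕ) : bp (m + n) = bp m ++ bp n := by
  induction m with
  | zero => simp [bp]
  | succ m ih => rw [show m + 1 + n = (m + n) + 1 by ring, bp_succ, ih, bp_succ, List.append_assoc]

/-- what follows the first (empty) cell of `bp n ++ false :: t` -/
def tl (n : ℕ) (t : List Bool) : List Bool := (bp n ++ false :: t).tail

theorem bp_eq_tl (n : ℕ) (t : List Bool) : bp n ++ false :: t = false :: tl n t := by
  cases n <;> simp [tl, bp, blk]

theorem tl_zero (t : List Bool) : tl 0 t = t := rfl

theorem mem_moves_bp (t : List Bool) (n : ℕ) : ∀ w', w' ∈ moves (bp n ++ false :: t) ↔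
    (∃ i m : ℕ, i + m + 1 = n ∧ ∃ v ∈ moves (blk ++ [false]), w' = bp i ++ (v ++ tl m t)) ∨
      (∃ v ∈ moves (false :: t), w' = bp n ++ v) := by
  induction n with
  | zero =>
    intro w'
    simp [bp]
  | succ n ih =>
    intro w'
    rw [bp_succ, List.append_assoc, bp_eq_tl, moves_mid, ← bp_eq_tl]
    simp only [ih]
    constructor
    · rintro (⟨v, hv, rfl⟩ | ⟨u, (⟨i, m, him, v, hv, rfl⟩ | ⟨v, hv, rfl⟩), rfl⟩)
      · exact Or.inl ⟨0, n, by omega, v, hv, by simp [bp]⟩
      · exact Or.inl ⟨i + 1, m, by omega, v, hv, by simp [bp]⟩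
      · exact Or.inr ⟨v, hv, by simp⟩
    · rintro (⟨i, m, him, v, hv, rfl⟩ | ⟨v, hv, rfl⟩)
      · rcases i with _ | i
        · left
          obtain rfl : m = n := by omega
          exact ⟨v, hv, by simp [bp]⟩
        · right
          exact ⟨_, Or.inl ⟨i, m, by omega, v, hv, rfl⟩, by simp [bp]⟩
      · right
        exact ⟨_, Or.inr ⟨v, hv, rfl⟩, by simp⟩

/-- the words of the family -/
def X (l : List Bool) (n : ℕ) (r : List Bool) : List Bool := l ++ (bp n ++ r)

theorem mem_moves_X (l : List Bool) (n : ℕ) (t w' : List Bool) :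
    w' ∈ moves (X l n (false :: t)) ↔
    (∃ v ∈ moves (l ++ [false]), w' = v ++ tl n t) ∨
    (∃ i m : ℕ, i + m + 1 = n ∧ ∃ v ∈ moves (blk ++ [false]), w' = l ++ (bp i ++ (v ++ tl m t))) ∨
      (∃ v ∈ moves (false :: t), w' = l ++ (bp n ++ v)) := by
  rw [X, bp_eq_tl, moves_mid, ← bp_eq_tl]
  simp only [mem_moves_bp]
  constructor
  · rintro (⟨v, hv, rfl⟩ | ⟨u, (⟨i, m, him, v, hv, rfl⟩ | ⟨v, hv, rfl⟩), rfl⟩)
    · exact Or.inl ⟨v, hv, rfl⟩
    · exact Or.inr (Or.inl ⟨i, m, him, v, hv, rfl⟩)
    · exact Or.inr (Or.inr ⟨v, hv, rfl⟩)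
  · rintro (⟨v, hv, rfl⟩ | ⟨i, m, him, v, hv, rfl⟩ | ⟨v, hv, rfl⟩)
    · exact Or.inl ⟨v, hv, rfl⟩
    · exact Or.inr ⟨_, Or.inl ⟨i, m, him, v, hv, rfl⟩, rfl⟩
    · exact Or.inr ⟨_, Or.inr ⟨v, hv, rfl⟩, rfl⟩

theorem moves_blk : moves (blk ++ [false]) =
    [[false, true, false, true, true, false, false, false, true, true, false],
     [false, true, false, true, false, false, false, true, true, true, false],
     [false, true, false, true, false, true, true, true, false, false, false],
     [false, true, false, true, false, true, true, false, false, false, true]] := by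
  decide

/-- `w` behaves as the sum of `U` and `Z`, and has as many pegs -/
def Dec (w U Z : List Bool) : Prop :=
  nimValue w = nimValue U ^^^ nimValue Z ∧ w.count true = U.count true + Z.count true

theorem Dec.split {U Z : List Bool} (hU : NE U) (hZ : NS Z) : Dec (U ++ false :: Z) U Z :=
  ⟨nim_split hU hZ, by simp [List.count_append]⟩

/-- splitting at three consecutive empty cells -/
theorem Dec.split3 (U Z : List Bool) :
    Dec (U ++ false :: false :: false :: Z) (U ++ [false]) (false :: Z) := by
  have := Dec.split (NE_append_false U) (NS_cons_false Z)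
  have e : U ++ false :: false :: false :: Z = U ++ [false] ++ false :: false :: Z := by simp
  rw [e]
  exact this

/-- the right-hand words used at a cut -/
def R12 : List Bool := [false, true, false, true, true, false]
def R11 : List Bool := [false, true, false, true, false]
def R113 : List Bool := [false, true, false, true, false, true, true, true, false]
def R112 : List Bool := [false, true, false, true, false, true, true, false]

/-- the left-hand words used at a cut -/
def L2 : List Bool := [false, true, true]
def L3 : List Bool := [false, true, true, true]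
def L2122 : List Bool := [false, true, true, false, true, false, true, true, false, true, true]

theorem kind1 (l : List Bool) (i m : ℕ) (t : List Bool) :
    Dec (l ++ (bp i ++ ([false, true, false, true, true, false, false, false, true, true,
      false] ++ tl m t))) (X l i R12) (X L2 m (false :: t)) := by
  have h := Dec.split3 (l ++ (bp i ++ [false, true, false, true, true]))
    ([true, true, false] ++ tl m t)
  have e1 : l ++ (bp i ++ ([false, true, false, true, true, false, false, false, true, true,
      false] ++ tl m t)) = l ++ (bp i ++ [false, true, false, true, true]) ++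
        false :: false :: false :: ([true, true, false] ++ tl m t) := by simp
  have e2 : X L2 m (false :: t) = false :: ([true, true, false] ++ tl m t) := by
    rw [X, bp_eq_tl]
    simp [L2]
  have e3 : X l i R12 = l ++ (bp i ++ [false, true, false, true, true]) ++ [false] := by
    simp [X, R12]
  rw [e1, e2, e3]
  exact h

theorem kind2 (l : List Bool) (i m : ℕ) (t : List Bool) :
    Dec (l ++ (bp i ++ ([false, true, false, true, false, false, false, true, true, true,
      false] ++ tl m t))) (X l i R11) (X L3 m (false :: t)) := by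
  have h := Dec.split3 (l ++ (bp i ++ [false, true, false, true]))
    ([true, true, true, false] ++ tl m t)
  have e1 : l ++ (bp i ++ ([false, true, false, true, false, false, false, true, true, true,
      false] ++ tl m t)) = l ++ (bp i ++ [false, true, false, true]) ++
        false :: false :: false :: ([true, true, true, false] ++ tl m t) := by simp
  have e2 : X L3 m (false :: t) = false :: ([true, true, true, false] ++ tl m t) := by
    rw [X, bp_eq_tl]
    simp [L3]
  have e3 : X l i R11 = l ++ (bp i ++ [false, true, false, true]) ++ [false] := by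
    simp [X, R11]
  rw [e1, e2, e3]
  exact h

theorem kind3 (l : List Bool) (i m : ℕ) (t : List Bool) :
    Dec (l ++ (bp i ++ ([false, true, false, true, false, true, true, true, false, false,
      false] ++ tl m t))) (X l i R113) (X [] m (false :: t)) := by
  have h := Dec.split3 (l ++ (bp i ++ [false, true, false, true, false, true, true, true]))
    (tl m t)
  have e1 : l ++ (bp i ++ ([false, true, false, true, false, true, true, true, false, false,
      false] ++ tl m t)) = l ++ (bp i ++ [false, true, false, true, false, true, true, true]) ++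
        false :: false :: false :: (tl m t) := by simp
  have e2 : X [] m (false :: t) = false :: (tl m t) := by
    rw [X, bp_eq_tl]
    simp
  have e3 : X l i R113 = l ++ (bp i ++ [false, true, false, true, false, true, true, true]) ++
      [false] := by
    simp [X, R113]
  rw [e1, e2, e3]
  exact h

theorem kind4 (l : List Bool) (i m : ℕ) (t : List Bool) :
    Dec (l ++ (bp i ++ ([false, true, false, true, false, true, true, false, false, false,
      true] ++ tl m t))) (X l i R112) (false :: true :: tl m t) := by
  have h := Dec.split3 (l ++ (bp i ++ [false, true, false, true, false, true, true]))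
    (true :: tl m t)
  have e1 : l ++ (bp i ++ ([false, true, false, true, false, true, true, false, false, false,
      true] ++ tl m t)) = l ++ (bp i ++ [false, true, false, true, false, true, true]) ++
        false :: false :: false :: (true :: tl m t) := by simp
  have e3 : X l i R112 = l ++ (bp i ++ [false, true, false, true, false, true, true]) ++
      [false] := by
    simp [X, R112]
  rw [e1, e3]
  exact h

theorem inc_zero (t : List Bool) : false :: true :: tl 0 t = false :: true :: t := rfl

theorem inc_succ (m : ℕ) (t : List Bool) :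
    false :: true :: tl (m + 1) t = X L2122 m (false :: t) := by
  simp [tl, bp, blk, X, L2122]

end Pool.Agent.W_MP_b7d892_co
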